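import Pool.Agent.H430R3.Rec

/-! The independence number of a set of vertices as a measure; cuts of small sim-value in graphs
without large induced stars. -/

set_option autoImplicit false
set_option linter.unusedSectionVars false

namespace Pool.Agent.H430R3.TD

open Finset

variable {V : Type} [Fintype V] [DecidableEq V] {G : SimpleGraph V}

/-- `I` is independent -/
def Ind (G : SimpleGraph V) (I : Finset V) : Prop := ∀ x ∈ I, ∀ y ∈ I, ¬ G.Adj x y

open Classical in
/-- the largest size of an independent subset of `X` -/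
noncomputable def al (G : SimpleGraph V) (X : Finset V) : ℕ :=
  (univ.filter fun I : Finset V => Ind G I ∧ I ⊆ X).sup card

lemma le_al {X I : Finset V} (h1 : Ind G I) (h2 : I ⊆ X) : I.card ≤ al G X := by
  classical
  unfold al
  exact le_sup (f := card) (mem_filter.2 ⟨mem_univ _, h1, h2⟩)

lemma al_le {X : Finset V} {c : ℕ} (h : ∀ I, Ind G I → I ⊆ X → I.card ≤ c) : al G X ≤ c := by
  classical
  unfold al
  rw [Finset.sup_le_iff]
  intro I hI
  rw [mem_filter] at hI
  exact h I hI.2.1 hI.2.2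

lemma exists_al (G : SimpleGraph V) (X : Finset V) : ∃ I, Ind G I ∧ I ⊆ X ∧ I.card = al G X := by
  by_contra hcon
  push Not at hcon
  have h1 : al G X ≤ al G X - 1 := by
    apply al_le
    intro I h1 h2
    have := le_al h1 h2
    have := hcon I h1 h2
    omega
  have h2 : al G X ≠ 0 := by
    intro h0
    have := hcon ∅ (by intro x hx; exact absurd hx (notMem_empty _)) (empty_subset _)
    rw [h0, card_empty] at this
    exact this rfl
  omega

lemma Ind.mono {I J : Finset V} (h : Ind G I) (hJ : J ⊆ I) : Ind G J :=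
  fun x hx y hy => h x (hJ hx) y (hJ hy)

lemma al_empty : al G ∅ = 0 := by
  have : al G ∅ ≤ 0 := al_le fun I _ h => by rw [subset_empty.1 h, card_empty]
  omega

lemma al_mono (X Y : Finset V) (h : X ⊆ Y) : al G X ≤ al G Y :=
  al_le fun _ h1 h2 => le_al h1 (h2.trans h)

lemma al_union (X Y : Finset V) : al G (X ∪ Y) ≤ al G X + al G Y := by
  apply al_le
  intro I h1 h2
  have h3 : I ⊆ (I ∩ X) ∪ (I ∩ Y) := by
    intro x hx
    have := h2 hx
    rw [mem_union] at this ⊢
    rw [mem_inter, mem_inter]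
    tauto
  refine (card_le_card h3).trans ((card_union_le _ _).trans (Nat.add_le_add ?_ ?_))
  · exact le_al (h1.mono inter_subset_left) inter_subset_right
  · exact le_al (h1.mono inter_subset_left) inter_subset_right

lemma al_singleton (v : V) : al G {v} ≤ 1 :=
  al_le fun I _ h => (card_le_card h).trans (by rw [card_singleton])

lemma al_sep (W : Finset V) : ∃ Q : Finset V, Q.card = al G W ∧ ∀ S P R : Finset V,
    (∀ v, v ∈ S ∨ v ∈ P ∨ v ∈ R) → Disjoint P R → Disjoint S P → Disjoint S R →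
    (∀ x ∈ P, ∀ y ∈ R, ¬ G.Adj x y) → al G (W ∩ P) ≤ (Q ∩ P).card + 1 * al G S := by
  obtain ⟨Q, hQ, hQW, hQc⟩ := exists_al G W
  refine ⟨Q, hQc, ?_⟩
  intro S P R hcov hPR hSP hSR hne
  rw [one_mul]
  apply al_le
  intro J hJ hJW
  have h1 : (J ∪ (Q ∩ R)).card ≤ al G W := by
    apply le_al
    · intro x hx y hy
      rw [mem_union, mem_inter] at hx hy
      rcases hx with hx | hx <;> rcases hy with hy | hy
      · exact hJ x hx y hy
      · exact hne x (mem_inter.1 (hJW hx)).2 y hy.2
      · exact fun h => hne y (mem_inter.1 (hJW hy)).2 x hx.2 h.symm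
      · exact hQ x hx.1 y hy.1
    · intro x hx
      rw [mem_union, mem_inter] at hx
      rcases hx with hx | hx
      · exact (mem_inter.1 (hJW hx)).1
      · exact hQW hx.1
  have h2 : Disjoint J (Q ∩ R) := by
    rw [disjoint_left]
    intro x hx hx'
    exact disjoint_left.1 hPR (mem_inter.1 (hJW hx)).2 (mem_inter.1 hx').2
  rw [card_union_of_disjoint h2] at h1
  have h3 : Q ⊆ (Q ∩ R) ∪ ((Q ∩ P) ∪ (Q ∩ S)) := by
    intro x hx
    simp only [mem_union, mem_inter]
    rcases hcov x with h | h | h <;> tauto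
  have h4 : Q.card ≤ (Q ∩ R).card + ((Q ∩ P).card + (Q ∩ S).card) :=
    (card_le_card h3).trans ((card_union_le _ _).trans
      (Nat.add_le_add_left (card_union_le _ _) _))
  have h5 : (Q ∩ S).card ≤ al G S := le_al (hQ.mono inter_subset_left) inter_subset_right
  omega

open Classical in
/-- closed neighbourhood -/
noncomputable def cN (G : SimpleGraph V) (v : V) : Finset V := univ.filter fun x => x = v ∨ G.Adj v x

open Classical in
lemma mem_cN {v x : V} : x ∈ cN G v ↔ x = v ∨ G.Adj v x := by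
  unfold cN
  exact ⟨fun h => (mem_filter.1 h).2, fun h => mem_filter.2 ⟨mem_univ _, h⟩⟩

lemma al_cN {d : ℕ} (hd : 2 ≤ d)
    (hfree : ¬ ∃ (c : V) (f : Fin d → V), Function.Injective f ∧ (∀ i, G.Adj c (f i)) ∧
      ∀ i j, ¬ G.Adj (f i) (f j)) (v : V) : al G (cN G v) ≤ d - 1 := by
  apply al_le
  intro I hI hIN
  by_contra hbig
  push Not at hbig
  have hcard : d ≤ I.card := by omega
  by_cases hv : v ∈ I
  · -- then I = {v}
    have h1 : I ⊆ {v} := by
      intro x hx
      rw [mem_singleton]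
      rcases mem_cN.1 (hIN hx) with h | h
      · exact h
      · exact absurd h (hI v hv x hx)
    have := card_le_card h1
    rw [card_singleton] at this
    omega
  · obtain ⟨J, hJ, hJc⟩ := exists_subset_card_eq hcard
    apply hfree
    refine ⟨v, fun i => ((J.equivFinOfCardEq hJc).symm i : V), ?_, ?_, ?_⟩
    · intro i j hij
      exact (J.equivFinOfCardEq hJc).symm.injective (Subtype.ext hij)
    · intro i
      have h1 : ((J.equivFinOfCardEq hJc).symm i : V) ∈ I := hJ ((J.equivFinOfCardEq hJc).symm i).2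
      rcases mem_cN.1 (hIN h1) with h | h
      · rw [h] at h1
        exact absurd h1 hv
      · exact h
    · intro i j
      exact hI _ (hJ ((J.equivFinOfCardEq hJc).symm i).2) _ (hJ ((J.equivFinOfCardEq hJc).symm j).2)

lemma al_biUnion {d : ℕ} (h : ∀ v, al G (cN G v) ≤ d) (X : Finset V) :
    al G (X.biUnion (cN G)) ≤ X.card * d := by
  induction X using Finset.induction_on with
  | empty => rw [biUnion_empty, al_empty]; omega
  | insert a s ha ih =>
    rw [biUnion_insert, card_insert_of_notMem ha]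
    refine (al_union _ _).trans ?_
    have := h a
    have e : (s.card + 1) * d = s.card * d + d := by ring
    omega

/-- crossing induced matchings -/
def XM (G : SimpleGraph V) (A : V → Prop) (M : Finset (V × V)) : Prop :=
  (∀ p ∈ M, G.Adj p.1 p.2 ∧ A p.1 ∧ ¬ A p.2) ∧ ∀ p ∈ M, ∀ q ∈ M, p ≠ q →
    ¬ G.Adj p.1 q.1 ∧ ¬ G.Adj p.1 q.2 ∧ ¬ G.Adj p.2 q.1 ∧ ¬ G.Adj p.2 q.2

/-- A cut of sim-value at most `k` in a graph without induced `K_{1,d}` has an edge cover of
independence number at most `2k(d-1)`. -/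
theorem cut_alpha {d k : ℕ} (hd : 2 ≤ d)
    (hfree : ¬ ∃ (c : V) (f : Fin d → V), Function.Injective f ∧ (∀ i, G.Adj c (f i)) ∧
      ∀ i j, ¬ G.Adj (f i) (f j)) (A : V → Prop)
    (hk : ¬ ∃ x y : Fin (k + 1) → V, (∀ i, G.Adj (x i) (y i) ∧ A (x i) ∧ ¬ A (y i)) ∧
      ∀ i j, i ≠ j → ¬ G.Adj (x i) (x j) ∧ ¬ G.Adj (x i) (y j) ∧ ¬ G.Adj (y i) (y j)) :
    ∃ S : Finset V, al G S ≤ 2 * k * (d - 1) ∧
      ∀ a b, A a → ¬ A b → G.Adj a b → a ∈ S ∨ b ∈ S := by
  classical
  have hbound : ∀ M, XM G A M → M.card ≤ k := by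
    intro M hM
    by_contra hbig
    push Not at hbig
    obtain ⟨N, hN, hNc⟩ := exists_subset_card_eq (s := M) (n := k + 1) hbig
    apply hk
    let e := (N.equivFinOfCardEq hNc).symm
    have hinj : ∀ i j : Fin (k + 1), i ≠ j → ((e i : V × V) ≠ (e j : V × V)) := by
      intro i j hij h
      exact hij (e.injective (Subtype.ext h))
    refine ⟨fun i => (e i : V × V).1, fun i => (e i : V × V).2, ?_, ?_⟩
    · intro i
      exact hM.1 _ (hN (e i).2)
    · intro i j hij
      obtain ⟨h1, h2, _, h4⟩ := hM.2 _ (hN (e i).2) _ (hN (e j).2) (hinj i j hij)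
      exact ⟨h1, h2, h4⟩
  -- a maximal crossing induced matching
  have hne : (univ.filter fun M : Finset (V × V) => XM G A M).Nonempty :=
    ⟨∅, mem_filter.2 ⟨mem_univ _, by simp, by simp⟩⟩
  obtain ⟨M, hM, hmax⟩ := exists_max_image _ card hne
  rw [mem_filter] at hM
  have hMX := hM.2
  refine ⟨(M.image Prod.fst ∪ M.image Prod.snd).biUnion (cN G), ?_, ?_⟩
  · refine (al_biUnion (al_cN hd hfree) _).trans (Nat.mul_le_mul_right _ ?_)
    refine (card_union_le _ _).trans ?_
    have h1 := card_image_le (s := M) (f := Prod.fst)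
    have h2 := card_image_le (s := M) (f := Prod.snd)
    have h3 := hbound M hMX
    omega
  · intro a b ha hb hab
    by_contra hcon
    push Not at hcon
    obtain ⟨h1, h2⟩ := hcon
    have g1 : ∀ p ∈ M, p.1 ≠ a ∧ ¬ G.Adj p.1 a ∧ p.2 ≠ a ∧ ¬ G.Adj p.2 a := by
      intro p hp
      have hm : ∀ z, z = p.1 ∨ z = p.2 → a ∉ cN G z := by
        intro z hz ha'
        apply h1
        rw [mem_biUnion]
        refine ⟨z, ?_, ha'⟩
        rw [mem_union, mem_image, mem_image]
        rcases hz with hz | hz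
        · exact Or.inl ⟨p, hp, hz.symm⟩
        · exact Or.inr ⟨p, hp, hz.symm⟩
      have e1 := hm p.1 (Or.inl rfl)
      have e2 := hm p.2 (Or.inr rfl)
      rw [mem_cN] at e1 e2
      push Not at e1 e2
      exact ⟨e1.1.symm, e1.2, e2.1.symm, e2.2⟩
    have g2 : ∀ p ∈ M, p.1 ≠ b ∧ ¬ G.Adj p.1 b ∧ p.2 ≠ b ∧ ¬ G.Adj p.2 b := by
      intro p hp
      have hm : ∀ z, z = p.1 ∨ z = p.2 → b ∉ cN G z := by
        intro z hz ha'
        apply h2
        rw [mem_biUnion]
        refine ⟨z, ?_, ha'⟩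
        rw [mem_union, mem_image, mem_image]
        rcases hz with hz | hz
        · exact Or.inl ⟨p, hp, hz.symm⟩
        · exact Or.inr ⟨p, hp, hz.symm⟩
      have e1 := hm p.1 (Or.inl rfl)
      have e2 := hm p.2 (Or.inr rfl)
      rw [mem_cN] at e1 e2
      push Not at e1 e2
      exact ⟨e1.1.symm, e1.2, e2.1.symm, e2.2⟩
    have hnot : (a, b) ∉ M := fun h => (g1 _ h).1 rfl
    have hins : XM G A (insert (a, b) M) := by
      constructor
      · intro p hp
        rcases mem_insert.1 hp with rfl | hp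
        · exact ⟨hab, ha, hb⟩
        · exact hMX.1 p hp
      · intro p hp q hq hpq
        rcases mem_insert.1 hp with rfl | hp <;> rcases mem_insert.1 hq with rfl | hq
        · exact absurd rfl hpq
        · obtain ⟨_, e2, _, e4⟩ := g1 q hq
          obtain ⟨_, f2, _, f4⟩ := g2 q hq
          exact ⟨fun h => e2 h.symm, fun h => e4 h.symm, fun h => f2 h.symm, fun h => f4 h.symm⟩
        · obtain ⟨_, e2, _, e4⟩ := g1 p hp
          obtain ⟨_, f2, _, f4⟩ := g2 p hp
          exact ⟨e2, f2, e4, f4⟩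
        · exact hMX.2 p hp q hq hpq
    have := hmax _ (mem_filter.2 ⟨mem_univ _, hins⟩)
    rw [card_insert_of_notMem hnot] at this
    omega

end Pool.Agent.H430R3.TD
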