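import Mathlib

/-!
The graph `H`: the line graph of `K_9` together with one new vertex for each clique of size three,
joined to the three members of the clique.
-/

set_option autoImplicit false

namespace Pool.Agent.H430R3.CoEq

/-- edges of `K_9` -/
abbrev E : Type := {s : Finset (Fin 9) // s.card = 2}

/-- three pairwise intersecting edges of `K_9` -/
abbrev F : Type := {T : Finset E // T.card = 3 ∧ ∀ a ∈ T, ∀ b ∈ T, a ≠ b → (a.1 ∩ b.1).Nonempty}

abbrev V : Type := E ⊕ F

/-- adjacency -/
def adj : V → V → Prop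
  | .inl a, .inl b => a ≠ b ∧ (a.1 ∩ b.1).Nonempty
  | .inl a, .inr T => a ∈ T.1
  | .inr T, .inl a => a ∈ T.1
  | .inr _, .inr _ => False

def H : SimpleGraph V where
  Adj := adj
  symm := ⟨by
    intro v w h
    rcases v with a | T <;> rcases w with b | T'
    · exact ⟨h.1.symm, by rw [Finset.inter_comm]; exact h.2⟩
    · exact h
    · exact h
    · exact h⟩
  loopless := ⟨by
    intro v h
    rcases v with a | T
    · exact h.1 rfl
    · exact h⟩

/-- star of a vertex of `K_9` -/
def star (x : Fin 9) : Finset E := Finset.univ.filter fun e => x ∈ e.1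

lemma mem_star {x : Fin 9} {e : E} : e ∈ star x ↔ x ∈ e.1 := by simp [star]

lemma star_card (x : Fin 9) : (star x).card = 8 := by
  have h : star x = ((Finset.univ.erase x).attach.image fun y => (⟨{x, y.1}, by
      have := y.2
      rw [Finset.mem_erase] at this
      exact Finset.card_pair this.1.symm⟩ : E)) := by
    ext e
    rw [mem_star, Finset.mem_image]
    constructor
    · intro hx
      obtain ⟨a, b, hab, he⟩ := Finset.card_eq_two.1 e.2
      rw [he, Finset.mem_insert, Finset.mem_singleton] at hx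
      rcases hx with rfl | rfl
      · refine ⟨⟨b, by simp [hab.symm]⟩, Finset.mem_attach _ _, Subtype.ext ?_⟩
        exact he.symm
      · refine ⟨⟨a, by simp [hab]⟩, Finset.mem_attach _ _, Subtype.ext ?_⟩
        rw [he]; exact Finset.pair_comm _ _
    · rintro ⟨y, _, rfl⟩
      simp
  rw [h, Finset.card_image_of_injective]
  · simp
  · intro y z hyz
    have h1 : ({x, y.1} : Finset (Fin 9)) = {x, z.1} := congrArg Subtype.val hyz
    have hy := y.2
    have hz := z.2
    rw [Finset.mem_erase] at hy hz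
    have h2 : y.1 ∈ ({x, z.1} : Finset (Fin 9)) := by rw [← h1]; simp
    rw [Finset.mem_insert, Finset.mem_singleton] at h2
    rcases h2 with h2 | h2
    · exact absurd h2 hy.1
    · exact Subtype.ext h2

/-- the vertex set of the clique given by a star -/
def starV (x : Fin 9) : Finset V := (star x).map ⟨Sum.inl, Sum.inl_injective⟩

/-- the vertex set of the clique given by a triple -/
def triV (T : F) : Finset V := insert (.inr T) (T.1.map ⟨Sum.inl, Sum.inl_injective⟩)

lemma inl_mem_starV {x : Fin 9} {e : E} : Sum.inl e ∈ starV x ↔ x ∈ e.1 := by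
  simp [starV, mem_star]

lemma inr_mem_starV {x : Fin 9} {T : F} : ¬ (Sum.inr T ∈ starV x) := by
  simp [starV]

lemma inl_mem_triV {T : F} {e : E} : Sum.inl e ∈ triV T ↔ e ∈ T.1 := by
  simp [triV]

lemma inr_mem_triV {T T' : F} : Sum.inr T' ∈ triV T ↔ T' = T := by
  simp [triV]

/-- a subset of a star with at most three elements extends to a triple -/
lemma extend {x : Fin 9} {C : Finset E} (hC : C ⊆ star x) (h3 : C.card ≤ 3) :
    ∃ T : F, C ⊆ T.1 := by
  obtain ⟨T, h1, h2, h4⟩ := Finset.exists_subsuperset_card_eq hC h3 (by rw [star_card]; norm_num)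
  refine ⟨⟨T, h4, fun a ha b hb _ => ⟨x, ?_⟩⟩, h1⟩
  rw [Finset.mem_inter]
  exact ⟨mem_star.1 (h2 ha), mem_star.1 (h2 hb)⟩

lemma exists_mem_triple (a : E) : ∃ T : F, a ∈ T.1 := by
  have hne : a.1.Nonempty := by rw [← Finset.card_pos, a.2]; norm_num
  obtain ⟨x, hx⟩ := hne
  obtain ⟨T, hT⟩ := extend (x := x) (C := {a}) (by
    rw [Finset.singleton_subset_iff, mem_star]; exact hx) (by simp)
  exact ⟨T, hT (Finset.mem_singleton_self a)⟩

lemma exists_triple_of_adj {a b : E} (h : (a.1 ∩ b.1).Nonempty) :
    ∃ T : F, a ∈ T.1 ∧ b ∈ T.1 := by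
  obtain ⟨x, hx⟩ := h
  rw [Finset.mem_inter] at hx
  obtain ⟨T, hT⟩ := extend (x := x) (C := {a, b}) (by
    intro e he
    rw [Finset.mem_insert, Finset.mem_singleton] at he
    rcases he with rfl | rfl
    · exact mem_star.2 hx.1
    · exact mem_star.2 hx.2) (le_trans Finset.card_le_two (by norm_num))
  exact ⟨T, hT (by simp), hT (by simp)⟩

/-- digits -/
lemma digits : ∀ (N : ℕ) (m : Fin N → ℤ), (∀ i, -1 ≤ m i ∧ m i ≤ 3) →
    ∑ i : Fin N, (5 : ℤ) ^ (i : ℕ) * m i = 0 → ∀ i, m i = 0 := by
  intro N
  induction N with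
  | zero => intro m _ _ i; exact i.elim0
  | succ N ih =>
    intro m hm hs
    rw [Fin.sum_univ_succ] at hs
    simp only [Fin.val_zero, pow_zero, one_mul, Fin.val_succ, pow_succ] at hs
    have h1 : ∑ i : Fin N, (5 : ℤ) ^ (i : ℕ) * 5 * m i.succ
        = 5 * ∑ i : Fin N, (5 : ℤ) ^ (i : ℕ) * m i.succ := by
      rw [Finset.mul_sum]
      exact Finset.sum_congr rfl fun i _ => by ring
    rw [h1] at hs
    have h0 := hm 0
    have h2 : m 0 = 0 := by omega
    have h3 : ∑ i : Fin N, (5 : ℤ) ^ (i : ℕ) * m i.succ = 0 := by omega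
    have h4 := ih (fun i => m i.succ) (fun i => hm _) h3
    intro i
    refine Fin.cases h2 (fun j => h4 j) i

/-- maximal stable sets of `H` are the sets meeting every `triV T` exactly once -/
lemma max_indep_iff (S : Finset V) :
    Maximal (fun s : Finset V => H.IsIndepSet (s : Set V)) S ↔
      ∀ T : F, (S.filter (fun v => v ∈ triV T)).card = 1 := by
  have hclique : ∀ T : F, ∀ v ∈ triV T, ∀ w ∈ triV T, v ≠ w → H.Adj v w := by
    intro T v hv w hw hne
    rcases v with a | T1 <;> rcases w with b | T2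
    · rw [inl_mem_triV] at hv hw
      have hab : a ≠ b := fun e => hne (congrArg _ e)
      exact ⟨hab, T.2.2 a hv b hw hab⟩
    · rw [inl_mem_triV] at hv
      rw [inr_mem_triV] at hw
      subst hw
      exact hv
    · rw [inl_mem_triV] at hw
      rw [inr_mem_triV] at hv
      subst hv
      exact hw
    · rw [inr_mem_triV] at hv hw
      subst hv; subst hw
      exact absurd rfl hne
  constructor
  · intro hS T
    have hI : H.IsIndepSet (S : Set V) := hS.prop
    apply le_antisymm
    · rw [Finset.card_le_one]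
      intro v hv w hw
      by_contra hne
      rw [Finset.mem_filter] at hv hw
      exact hI (by exact_mod_cast hv.1) (by exact_mod_cast hw.1) hne
        (hclique T v hv.2 w hw.2 hne)
    · rw [Nat.one_le_iff_ne_zero, Ne, Finset.card_eq_zero, ← Ne, ← Finset.nonempty_iff_ne_empty]
      by_cases hT : (Sum.inr T : V) ∈ S
      · exact ⟨_, Finset.mem_filter.2 ⟨hT, inr_mem_triV.2 rfl⟩⟩
      · -- add `inr T`
        by_contra hcon
        rw [Finset.not_nonempty_iff_eq_empty] at hcon
        apply hT
        have h1 : (fun s : Finset V => H.IsIndepSet (s : Set V)) (insert (Sum.inr T) S) := by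
          show H.IsIndepSet ((insert (Sum.inr T) S : Finset V) : Set V)
          have hno : ∀ w ∈ S, ¬ H.Adj (Sum.inr T) w := by
            intro w hw hadj
            rcases w with b | T2
            · have : (Sum.inl b : V) ∈ S.filter (fun v => v ∈ triV T) :=
                Finset.mem_filter.2 ⟨hw, inl_mem_triV.2 hadj⟩
              rw [hcon] at this
              exact absurd this (Finset.notMem_empty _)
            · exact hadj
          intro v hv w hw hne hadj
          rw [Finset.mem_coe, Finset.mem_insert] at hv hw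
          rcases hv with rfl | hv <;> rcases hw with rfl | hw
          · exact hne rfl
          · exact hno w hw hadj
          · exact hno v hv hadj.symm
          · exact hI (by exact_mod_cast hv) (by exact_mod_cast hw) hne hadj
        exact hS.le_of_ge h1 (Finset.subset_insert _ _) (Finset.mem_insert_self _ _)
  · intro h
    have huniq : ∀ T : F, ∀ v ∈ S, ∀ w ∈ S, v ∈ triV T → w ∈ triV T → v = w := by
      intro T v hv w hw h1 h2
      have := (h T).le
      rw [Finset.card_le_one] at this
      exact this v (Finset.mem_filter.2 ⟨hv, h1⟩) w (Finset.mem_filter.2 ⟨hw, h2⟩)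
    have hshare : ∀ v w : V, H.Adj v w → ∃ T : F, v ∈ triV T ∧ w ∈ triV T := by
      intro v w hadj
      rcases v with a | T1 <;> rcases w with b | T2
      · obtain ⟨T, h1, h2⟩ := exists_triple_of_adj hadj.2
        exact ⟨T, inl_mem_triV.2 h1, inl_mem_triV.2 h2⟩
      · exact ⟨T2, inl_mem_triV.2 hadj, inr_mem_triV.2 rfl⟩
      · exact ⟨T1, inr_mem_triV.2 rfl, inl_mem_triV.2 hadj⟩
      · exact absurd hadj (fun h => h)
    refine ⟨?_, ?_⟩
    · intro v hv w hw hne hadj
      obtain ⟨T, h1, h2⟩ := hshare v w hadj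
      exact hne (huniq T v (by exact_mod_cast hv) w (by exact_mod_cast hw) h1 h2)
    · intro S' hS' hle v hv
      by_contra hvS
      obtain ⟨T, hT⟩ : ∃ T : F, v ∈ triV T := by
        rcases v with a | T
        · obtain ⟨T, hT⟩ := exists_mem_triple a
          exact ⟨T, inl_mem_triV.2 hT⟩
        · exact ⟨T, inr_mem_triV.2 rfl⟩
      obtain ⟨w, hw⟩ := Finset.card_eq_one.1 (h T)
      have hw' : w ∈ S.filter (fun v => v ∈ triV T) := by rw [hw]; simp
      rw [Finset.mem_filter] at hw'
      have hne : v ≠ w := fun e => hvS (e ▸ hw'.1)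
      exact hS' (by exact_mod_cast hv) (by exact_mod_cast hle hw'.1) hne
        (hclique T v hT w hw'.2 hne)

/-- `H` is equistable. -/
theorem H_equistable : ∃ φ : V → ℝ, (∀ v, 0 < φ v) ∧ ∀ S : Finset V,
    (Maximal (fun s : Finset V => H.IsIndepSet (s : Set V)) S ↔ ∑ v ∈ S, φ v = 1) := by
  classical
  obtain ⟨N, ⟨ef⟩⟩ : ∃ N, Nonempty (F ≃ Fin N) := ⟨_, ⟨Fintype.equivFin F⟩⟩
  let C : ℝ := ∑ i : Fin N, (5 : ℝ) ^ (i : ℕ)
  have hF : Nonempty F := by
    obtain ⟨T, _⟩ := exists_mem_triple ⟨{0, 1}, by decide⟩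
    exact ⟨T⟩
  have hC : 0 < C := by
    apply Finset.sum_pos (fun i _ => by positivity)
    obtain ⟨T⟩ := hF
    exact ⟨ef T, Finset.mem_univ _⟩
  let c : F → ℝ := fun T => (5 : ℝ) ^ ((ef T : ℕ)) / C
  have hc : ∀ T, 0 < c T := fun T => by positivity
  let φ : V → ℝ := fun v => ∑ T : F, if v ∈ triV T then c T else 0
  have hpos : ∀ v, 0 < φ v := by
    intro v
    obtain ⟨T, hT⟩ : ∃ T : F, v ∈ triV T := by
      rcases v with a | T
      · obtain ⟨T, hT⟩ := exists_mem_triple a
        exact ⟨T, inl_mem_triV.2 hT⟩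
      · exact ⟨T, inr_mem_triV.2 rfl⟩
    apply Finset.sum_pos' (fun T _ => by split_ifs <;> first | exact (hc T).le | exact le_rfl)
    exact ⟨T, Finset.mem_univ _, by rw [if_pos hT]; exact hc T⟩
  refine ⟨φ, hpos, fun S => ?_⟩
  rw [max_indep_iff]
  have hsum : ∑ v ∈ S, φ v = (∑ i : Fin N,
      (5 : ℝ) ^ (i : ℕ) * ((S.filter (fun v => v ∈ triV (ef.symm i))).card : ℝ)) / C := by
    show ∑ v ∈ S, ∑ T : F, (if v ∈ triV T then c T else 0) = _
    rw [Finset.sum_comm]
    rw [Finset.sum_div]
    rw [← Equiv.sum_comp ef.symm]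
    apply Finset.sum_congr rfl
    intro i _
    rw [← Finset.sum_filter, Finset.sum_const, nsmul_eq_mul]
    show _ * ((5 : ℝ) ^ ((ef (ef.symm i) : ℕ)) / C) = _
    rw [Equiv.apply_symm_apply]
    ring
  rw [hsum, div_eq_iff hC.ne', one_mul]
  constructor
  · intro h
    apply Finset.sum_congr rfl
    intro i _
    rw [h, Nat.cast_one, mul_one]
  · intro h T
    have hz : ∑ i : Fin N, (5 : ℤ) ^ (i : ℕ) *
        (((S.filter (fun v => v ∈ triV (ef.symm i))).card : ℤ) - 1) = 0 := by
      have : (((∑ i : Fin N, (5 : ℤ) ^ (i : ℕ) *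
        (((S.filter (fun v => v ∈ triV (ef.symm i))).card : ℤ) - 1) : ℤ)) : ℝ) = 0 := by
        push_cast
        simp_rw [mul_sub, mul_one]
        rw [Finset.sum_sub_distrib, h]
        exact sub_self _
      exact_mod_cast this
    have hb : ∀ i : Fin N,
        -1 ≤ (((S.filter (fun v => v ∈ triV (ef.symm i))).card : ℤ) - 1) ∧
        (((S.filter (fun v => v ∈ triV (ef.symm i))).card : ℤ) - 1) ≤ 3 := by
      intro i
      have h4 : (S.filter (fun v => v ∈ triV (ef.symm i))).card ≤ 4 := by
        calc (S.filter (fun v => v ∈ triV (ef.symm i))).card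
            ≤ (triV (ef.symm i)).card :=
              Finset.card_le_card (fun v hv => (Finset.mem_filter.1 hv).2)
          _ ≤ ((ef.symm i).1.map ⟨Sum.inl, Sum.inl_injective⟩).card + 1 :=
              Finset.card_insert_le _ _
          _ = 4 := by rw [Finset.card_map, (ef.symm i).2.1]
      constructor
      · have : (0 : ℤ) ≤ ((S.filter (fun v => v ∈ triV (ef.symm i))).card : ℤ) :=
          Int.natCast_nonneg _
        omega
      · have : ((S.filter (fun v => v ∈ triV (ef.symm i))).card : ℤ) ≤ 4 := by exact_mod_cast h4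
        omega
    have := digits _ _ hb hz (ef T)
    rw [Equiv.symm_apply_apply] at this
    have h5 : ((S.filter (fun v => v ∈ triV T)).card : ℤ) = 1 := by omega
    exact_mod_cast h5

end Pool.Agent.H430R3.CoEq
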