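import Pool.Agent.H430R3.CoEqA

/-!
The complement of `H` is equistable but not a general partition graph.
-/

set_option autoImplicit false

namespace Pool.Agent.H430R3.CoEq

/-- cliques of `H` -/
def IsCl (S : Finset V) : Prop := ∀ v ∈ S, ∀ w ∈ S, v ≠ w → H.Adj v w

lemma compl_indep (S : Finset V) : Hᶜ.IsIndepSet (S : Set V) ↔ IsCl S := by
  constructor
  · intro h v hv w hw hne
    by_contra hadj
    exact h (by exact_mod_cast hv) (by exact_mod_cast hw) hne
      ((SimpleGraph.compl_adj _ _ _).2 ⟨hne, hadj⟩)
  · intro h v hv w hw hne hadj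
    rw [SimpleGraph.compl_adj] at hadj
    exact hadj.2 (h v (by exact_mod_cast hv) w (by exact_mod_cast hw) hne)

lemma starV_cl (x : Fin 9) : IsCl (starV x) := by
  intro v hv w hw hne
  rcases v with a | T
  · rcases w with b | T'
    · rw [inl_mem_starV] at hv hw
      exact ⟨fun e => hne (congrArg _ e), ⟨x, Finset.mem_inter.2 ⟨hv, hw⟩⟩⟩
    · exact absurd hw inr_mem_starV
  · exact absurd hv inr_mem_starV

lemma triV_cl (T : F) : IsCl (triV T) := by
  intro v hv w hw hne
  rcases v with a | T1 <;> rcases w with b | T2
  · rw [inl_mem_triV] at hv hw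
    have hab : a ≠ b := fun e => hne (congrArg _ e)
    exact ⟨hab, T.2.2 a hv b hw hab⟩
  · rw [inl_mem_triV] at hv
    rw [inr_mem_triV] at hw
    subst hw
    exact hv
  · rw [inl_mem_triV] at hw
    rw [inr_mem_triV] at hv
    subst hv
    exact hw
  · rw [inr_mem_triV] at hv hw
    subst hv; subst hw
    exact absurd rfl hne

lemma max_starV (x : Fin 9) : Maximal IsCl (starV x) := by
  refine ⟨starV_cl x, fun S' hS' hle v hv => ?_⟩
  rcases v with a | T
  · rw [inl_mem_starV]
    by_contra hx
    -- `a` meets all eight edges at `x`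
    have h8 : (Finset.univ.erase x : Finset (Fin 9)) ⊆ a.1 := by
      intro y hy
      rw [Finset.mem_erase] at hy
      have he : ({x, y} : Finset (Fin 9)).card = 2 := Finset.card_pair hy.1.symm
      have hmem : (Sum.inl ⟨{x, y}, he⟩ : V) ∈ S' := by
        apply hle
        rw [inl_mem_starV]
        simp
      have hne : (Sum.inl a : V) ≠ Sum.inl ⟨{x, y}, he⟩ := by
        intro e
        have := Sum.inl_injective e
        apply hx
        rw [this]
        simp
      obtain ⟨_, z, hz⟩ := hS' _ hv _ hmem hne
      rw [Finset.mem_inter, Finset.mem_insert, Finset.mem_singleton] at hz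
      rcases hz.2 with h | h
      · exact absurd (h ▸ hz.1) hx
      · exact h ▸ hz.1
    have := Finset.card_le_card h8
    rw [Finset.card_erase_of_mem (Finset.mem_univ _), a.2] at this
    simp at this
  · exfalso
    have h8 : star x ⊆ T.1 := by
      intro e he
      have hmem : (Sum.inl e : V) ∈ S' := hle (inl_mem_starV.2 (mem_star.1 he))
      exact hS' _ hv _ hmem (by simp)
    have := Finset.card_le_card h8
    rw [star_card, T.2.1] at this
    omega

lemma max_triV (T : F) : Maximal IsCl (triV T) := by
  refine ⟨triV_cl T, fun S' hS' hle v hv => ?_⟩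
  have hT : (Sum.inr T : V) ∈ S' := hle (inr_mem_triV.2 rfl)
  by_cases hne : v = Sum.inr T
  · rw [hne]; exact inr_mem_triV.2 rfl
  · have := hS' _ hv _ hT hne
    rcases v with a | T'
    · exact inl_mem_triV.2 this
    · exact absurd this (fun h => h)

/-- classification of the maximal cliques of `H` -/
lemma max_cl {S : Finset V} (hS : Maximal IsCl S) : (∃ x, S = starV x) ∨ ∃ T, S = triV T := by
  by_cases hT : ∃ T : F, (Sum.inr T : V) ∈ S
  · obtain ⟨T, hT⟩ := hT
    right
    refine ⟨T, le_antisymm ?_ ?_⟩
    · intro v hv
      by_cases hne : v = Sum.inr T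
      · rw [hne]; exact inr_mem_triV.2 rfl
      · have := hS.prop _ hv _ hT hne
        rcases v with a | T'
        · exact inl_mem_triV.2 this
        · exact absurd this (fun h => h)
    · apply hS.le_of_ge (triV_cl T)
      intro v hv
      by_cases hne : v = Sum.inr T
      · rw [hne]; exact inr_mem_triV.2 rfl
      · have := hS.prop _ hv _ hT hne
        rcases v with a | T'
        · exact inl_mem_triV.2 this
        · exact absurd this (fun h => h)
  · push Not at hT
    -- all members are edges
    have hint : ∀ a b : E, (Sum.inl a : V) ∈ S → (Sum.inl b : V) ∈ S → (a.1 ∩ b.1).Nonempty := by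
      intro a b ha hb
      by_cases hab : a = b
      · subst hab
        rw [Finset.inter_self, ← Finset.card_pos, a.2]
        norm_num
      · exact (hS.prop _ ha _ hb (fun e => hab (Sum.inl_injective e))).2
    by_cases hx : ∃ x, ∀ a : E, (Sum.inl a : V) ∈ S → x ∈ a.1
    · obtain ⟨x, hx⟩ := hx
      left
      refine ⟨x, ?_⟩
      have hle : S ⊆ starV x := by
        intro v hv
        rcases v with a | T
        · exact inl_mem_starV.2 (hx a hv)
        · exact absurd hv (hT T)
      exact le_antisymm hle (hS.le_of_ge (starV_cl x) hle)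
    · push Not at hx
      exfalso
      obtain ⟨e, he, _⟩ := hx 0
      obtain ⟨x, y, hxy, hexy⟩ := Finset.card_eq_two.1 e.2
      obtain ⟨e', he', hxe'⟩ := hx x
      obtain ⟨e'', he'', hye''⟩ := hx y
      -- y ∈ e', x ∈ e''
      have hye' : y ∈ e'.1 := by
        obtain ⟨z, hz⟩ := hint e e' he he'
        rw [Finset.mem_inter, hexy, Finset.mem_insert, Finset.mem_singleton] at hz
        rcases hz.1 with rfl | rfl
        · exact absurd hz.2 hxe'
        · exact hz.2
      have hxe'' : x ∈ e''.1 := by
        obtain ⟨z, hz⟩ := hint e e'' he he''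
        rw [Finset.mem_inter, hexy, Finset.mem_insert, Finset.mem_singleton] at hz
        rcases hz.1 with rfl | rfl
        · exact hz.2
        · exact absurd hz.2 hye''
      obtain ⟨z, hz⟩ := hint e' e'' he' he''
      rw [Finset.mem_inter] at hz
      have hzx : z ≠ x := fun h => hxe' (h ▸ hz.1)
      have hzy : z ≠ y := fun h => hye'' (h ▸ hz.2)
      -- every member is contained in {x,y,z}
      have hsub : ∀ a : E, (Sum.inl a : V) ∈ S → a.1 ⊆ {x, y, z} := by
        have e'eq : e'.1 = {y, z} := by
          symm
          apply Finset.eq_of_subset_of_card_le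
          · intro w hw
            rw [Finset.mem_insert, Finset.mem_singleton] at hw
            rcases hw with rfl | rfl
            · exact hye'
            · exact hz.1
          · rw [e'.2, Finset.card_pair hzy.symm]
        have e''eq : e''.1 = {x, z} := by
          symm
          apply Finset.eq_of_subset_of_card_le
          · intro w hw
            rw [Finset.mem_insert, Finset.mem_singleton] at hw
            rcases hw with rfl | rfl
            · exact hxe''
            · exact hz.2
          · rw [e''.2, Finset.card_pair hzx.symm]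
        intro a ha
        obtain ⟨p, q, hpq, hapq⟩ := Finset.card_eq_two.1 a.2
        obtain ⟨w1, hw1⟩ := hint a e ha he
        obtain ⟨w2, hw2⟩ := hint a e' ha he'
        obtain ⟨w3, hw3⟩ := hint a e'' ha he''
        rw [Finset.mem_inter] at hw1 hw2 hw3
        rw [hexy, Finset.mem_insert, Finset.mem_singleton] at hw1
        rw [e'eq, Finset.mem_insert, Finset.mem_singleton] at hw2
        rw [e''eq, Finset.mem_insert, Finset.mem_singleton] at hw3
        -- two different elements of {x,y,z} lie in a
        have h2 : ∃ u v, u ≠ v ∧ u ∈ a.1 ∧ v ∈ a.1 ∧ u ∈ ({x, y, z} : Finset (Fin 9)) ∧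
            v ∈ ({x, y, z} : Finset (Fin 9)) := by
          rcases hw1.2 with h1 | h1 <;> rcases hw2.2 with h2 | h2 <;> rcases hw3.2 with h3 | h3 <;>
            subst h1 <;> subst h2 <;> subst h3
          all_goals first
            | exact ⟨_, _, hxy, hw1.1, hw2.1, by simp, by simp⟩
            | exact ⟨_, _, hzx.symm, hw1.1, hw2.1, by simp, by simp⟩
            | exact ⟨_, _, hzx.symm, hw1.1, hw3.1, by simp, by simp⟩
            | exact ⟨_, _, hxy.symm, hw1.1, hw3.1, by simp, by simp⟩
            | exact ⟨_, _, hzy.symm, hw1.1, hw3.1, by simp, by simp⟩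
            | exact ⟨_, _, hzy.symm, hw1.1, hw2.1, by simp, by simp⟩
        obtain ⟨u, v, huv, hu, hv, hu', hv'⟩ := h2
        have haeq : a.1 = {u, v} := by
          symm
          apply Finset.eq_of_subset_of_card_le
          · intro w hw
            rw [Finset.mem_insert, Finset.mem_singleton] at hw
            rcases hw with rfl | rfl
            · exact hu
            · exact hv
          · rw [a.2, Finset.card_pair huv]
        rw [haeq]
        intro w hw
        rw [Finset.mem_insert, Finset.mem_singleton] at hw
        rcases hw with rfl | rfl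
        · exact hu'
        · exact hv'
      -- the triangle
      have h3 : ({x, y, z} : Finset (Fin 9)).card = 3 :=
        Finset.card_eq_three.2 ⟨x, y, z, hxy, hzx.symm, hzy.symm, rfl⟩
      let T0 : Finset E := Finset.univ.filter fun a => a.1 ⊆ {x, y, z}
      have hT0 : T0.card = 3 := by
        have : (T0.map ⟨Subtype.val, Subtype.val_injective⟩) =
            ({x, y, z} : Finset (Fin 9)).powersetCard 2 := by
          ext s
          rw [Finset.mem_map, Finset.mem_powersetCard]
          constructor
          · rintro ⟨a, ha, rfl⟩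
            exact ⟨(Finset.mem_filter.1 ha).2, a.2⟩
          · rintro ⟨h1, h2⟩
            exact ⟨⟨s, h2⟩, Finset.mem_filter.2 ⟨Finset.mem_univ _, h1⟩, rfl⟩
        have h5 := congrArg Finset.card this
        rw [Finset.card_map, Finset.card_powersetCard, h3] at h5
        exact h5
      let T : F := ⟨T0, hT0, by
        intro a ha b hb hab
        have ha' := (Finset.mem_filter.1 ha).2
        have hb' := (Finset.mem_filter.1 hb).2
        by_contra hcon
        rw [Finset.not_nonempty_iff_eq_empty, ← Finset.disjoint_iff_inter_eq_empty] at hcon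
        have h6 := Finset.card_le_card (Finset.union_subset ha' hb')
        rw [Finset.card_union_of_disjoint hcon, a.2, b.2, h3] at h6
        omega⟩
      have hle : S ⊆ triV T := by
        intro v hv
        rcases v with a | T'
        · exact inl_mem_triV.2 (Finset.mem_filter.2 ⟨Finset.mem_univ _, hsub a hv⟩)
        · exact absurd hv (hT T')
      have := hS.le_of_ge (triV_cl T) hle
      exact hT T (this (inr_mem_triV.2 rfl))

/-- At most eight edges of `K_9` with nonzero sum. -/
lemma bad_edges (lam : Fin 9 → ℝ)
    (h : (Finset.univ.filter fun e : E => ∑ x ∈ e.1, lam x ≠ 0).card ≤ 8) :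
    8 ≤ (Finset.univ.filter fun x : Fin 9 => lam x = 0).card := by
  classical
  let Z := Finset.univ.filter fun x : Fin 9 => lam x = 0
  let P := Finset.univ.filter fun x : Fin 9 => 0 < lam x
  let N := Finset.univ.filter fun x : Fin 9 => lam x < 0
  let Bad := Finset.univ.filter fun e : E => ∑ x ∈ e.1, lam x ≠ 0
  have hcard : Z.card + P.card + N.card = 9 := by
    have h1 : Disjoint Z P := by
      rw [Finset.disjoint_left]
      intro x hx hy
      have h1 := (Finset.mem_filter.1 hx).2
      have h2 := (Finset.mem_filter.1 hy).2
      linarith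
    have h2 : Disjoint (Z ∪ P) N := by
      rw [Finset.disjoint_left]
      intro x hx hy
      have h2 := (Finset.mem_filter.1 hy).2
      rcases Finset.mem_union.1 hx with hx | hx
      · have h1 := (Finset.mem_filter.1 hx).2
        linarith
      · have h1 := (Finset.mem_filter.1 hx).2
        linarith
    rw [← Finset.card_union_of_disjoint h1, ← Finset.card_union_of_disjoint h2]
    have : Z ∪ P ∪ N = Finset.univ := by
      ext x
      simp only [Z, P, N, Finset.mem_union, Finset.mem_filter, Finset.mem_univ, true_and, iff_true]
      rcases lt_trichotomy (lam x) 0 with h | h | h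
      · exact Or.inr h
      · exact Or.inl (Or.inl h)
      · exact Or.inl (Or.inr h)
    rw [this]
    rfl
  have hcover : (Finset.univ : Finset (Fin 9)).offDiag ⊆
      (Bad.biUnion fun e => e.1.offDiag) ∪ (Z.offDiag ∪ (P ×ˢ N ∪ N ×ˢ P)) := by
    rintro ⟨x, y⟩ hxy
    rw [Finset.mem_offDiag] at hxy
    have hne : x ≠ y := hxy.2.2
    by_cases hb : lam x + lam y = 0
    · rw [Finset.mem_union]
      right
      rw [Finset.mem_union, Finset.mem_union, Finset.mem_offDiag, Finset.mem_product,
        Finset.mem_product]
      simp only [Z, P, N, Finset.mem_filter, Finset.mem_univ, true_and]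
      rcases lt_trichotomy (lam x) 0 with h | h | h
      · exact Or.inr (Or.inr ⟨h, by linarith⟩)
      · exact Or.inl ⟨h, by linarith, hne⟩
      · exact Or.inr (Or.inl ⟨h, by linarith⟩)
    · rw [Finset.mem_union]
      left
      rw [Finset.mem_biUnion]
      refine ⟨⟨{x, y}, Finset.card_pair hne⟩, ?_, ?_⟩
      · rw [Finset.mem_filter]
        refine ⟨Finset.mem_univ _, ?_⟩
        show ∑ z ∈ ({x, y} : Finset (Fin 9)), lam z ≠ 0
        rw [Finset.sum_pair hne]
        exact hb
      · rw [Finset.mem_offDiag]
        exact ⟨by simp, by simp, hne⟩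
  have h1 := Finset.card_le_card hcover
  have h2 : (Bad.biUnion fun e => e.1.offDiag).card ≤ Bad.card * 2 := by
    apply Finset.card_biUnion_le_card_mul
    intro e _
    rw [Finset.offDiag_card, e.2]
  have h3 := Finset.card_union_le (Bad.biUnion fun e => e.1.offDiag)
    (Z.offDiag ∪ (P ×ˢ N ∪ N ×ˢ P))
  have h4 := Finset.card_union_le Z.offDiag (P ×ˢ N ∪ N ×ˢ P)
  have h5 := Finset.card_union_le (P ×ˢ N) (N ×ˢ P)
  rw [Finset.card_product, Finset.card_product] at h5
  rw [Finset.offDiag_card] at h1 h4
  have h6 : (Finset.univ : Finset (Fin 9)).card = 9 := rfl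
  rw [h6] at h1
  have h7 : 72 ≤ Bad.card * 2 + (Z.card * Z.card - Z.card + (P.card * N.card + N.card * P.card)) := by
    omega
  have h8 : Bad.card ≤ 8 := h
  show 8 ≤ Z.card
  generalize Z.card = z at *
  generalize P.card = p at *
  generalize N.card = n at *
  by_contra hz
  have hz7 : z ≤ 7 := by omega
  have hn : n = 9 - z - p := by omega
  subst hn
  have hp : p ≤ 9 := by omega
  interval_cases z <;> interval_cases p <;> omega

end Pool.Agent.H430R3.CoEq
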