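import Pool.Agent.H430R3.CoEqB

/-!
Generic weights: the complement of `H` is equistable.
-/

set_option autoImplicit false

namespace Pool.Agent.H430R3.CoEq

/-- the linear form with coefficients `g` -/
noncomputable def dotL (g : E → ℝ) : (E → ℝ) →ₗ[ℝ] ℝ := ∑ e, g e • LinearMap.proj e

lemma dotL_apply (g ψ : E → ℝ) : dotL g ψ = ∑ e, g e * ψ e := by
  simp [dotL, LinearMap.sum_apply]

/-- edges in `S` -/
def eA (S : Finset V) : Finset E := Finset.univ.filter fun e => (Sum.inl e : V) ∈ S

/-- triples in `S` -/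
def eT (S : Finset V) : Finset F := Finset.univ.filter fun T => (Sum.inr T : V) ∈ S

/-- coefficients -/
noncomputable def gg (S : Finset V) (e : E) : ℝ :=
  (if e ∈ eA S then 1 else 0) - ∑ T ∈ eT S, if e ∈ T.1 then (1 : ℝ) else 0

lemma sum_gg (S : Finset V) (ψ : E → ℝ) :
    ∑ e, gg S e * ψ e = ∑ e ∈ eA S, ψ e - ∑ T ∈ eT S, ∑ e ∈ T.1, ψ e := by
  unfold gg
  simp_rw [sub_mul, Finset.sum_mul]
  rw [Finset.sum_sub_distrib, Finset.sum_comm]
  congr 1
  · simp_rw [ite_mul, one_mul, zero_mul]
    rw [← Finset.sum_filter]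
    congr 1
    ext e
    simp
  · apply Finset.sum_congr rfl
    intro T _
    simp_rw [ite_mul, one_mul, zero_mul]
    rw [← Finset.sum_filter]
    congr 1
    ext e
    simp

/-- weights -/
noncomputable def ph (ε : ℝ) (ψ : E → ℝ) : V → ℝ
  | .inl e => 1 / 8 + ε * ψ e
  | .inr T => 5 / 8 - ε * ∑ e ∈ T.1, ψ e

lemma sum_ph (ε : ℝ) (ψ : E → ℝ) (S : Finset V) :
    ∑ v ∈ S, ph ε ψ v = (((eA S).card : ℝ) + 5 * ((eT S).card : ℝ)) / 8
      + ε * ∑ e, gg S e * ψ e := by
  have h1 : ∑ v ∈ S, ph ε ψ v = ∑ v : V, if v ∈ S then ph ε ψ v else 0 := by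
    rw [← Finset.sum_filter]
    congr 1
    ext v
    simp
  rw [h1, Fintype.sum_sum_type, ← Finset.sum_filter, ← Finset.sum_filter]
  have h2 : ∑ e ∈ Finset.univ.filter (fun e : E => (Sum.inl e : V) ∈ S), ph ε ψ (Sum.inl e)
      = ((eA S).card : ℝ) / 8 + ε * ∑ e ∈ eA S, ψ e := by
    show ∑ e ∈ eA S, (1 / 8 + ε * ψ e) = _
    rw [Finset.sum_add_distrib, Finset.sum_const, nsmul_eq_mul, Finset.mul_sum]
    ring
  have h3 : ∑ T ∈ Finset.univ.filter (fun T : F => (Sum.inr T : V) ∈ S), ph ε ψ (Sum.inr T)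
      = 5 * ((eT S).card : ℝ) / 8 - ε * ∑ T ∈ eT S, ∑ e ∈ T.1, ψ e := by
    show ∑ T ∈ eT S, (5 / 8 - ε * ∑ e ∈ T.1, ψ e) = _
    rw [Finset.sum_sub_distrib, Finset.sum_const, nsmul_eq_mul, Finset.mul_sum]
    ring
  rw [h2, h3, sum_gg]
  ring

lemma eA_starV (x : Fin 9) : eA (starV x) = star x := by
  ext e
  simp only [eA, Finset.mem_filter, Finset.mem_univ, true_and, inl_mem_starV, mem_star]

lemma eT_starV (x : Fin 9) : eT (starV x) = ∅ := by
  ext T
  simp only [eT, Finset.mem_filter, Finset.mem_univ, true_and, Finset.notMem_empty, iff_false]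
  exact inr_mem_starV

lemma eA_triV (T : F) : eA (triV T) = T.1 := by
  ext e
  simp only [eA, Finset.mem_filter, Finset.mem_univ, true_and, inl_mem_triV]

lemma eT_triV (T : F) : eT (triV T) = {T} := by
  ext T'
  simp only [eT, Finset.mem_filter, Finset.mem_univ, true_and, inr_mem_triV, Finset.mem_singleton]

lemma ext_of {S S' : Finset V} (h1 : eA S = eA S') (h2 : eT S = eT S') : S = S' := by
  ext v
  rcases v with e | T
  · have := Finset.ext_iff.1 h1 e
    simpa only [eA, Finset.mem_filter, Finset.mem_univ, true_and] using this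
  · have := Finset.ext_iff.1 h2 T
    simpa only [eT, Finset.mem_filter, Finset.mem_univ, true_and] using this

/-- The combinatorial heart: the only degenerate sets of weight one are the maximal cliques. -/
lemma claimB (S : Finset V) (lam : Fin 9 → ℝ) (h : ∀ e : E, gg S e = ∑ x ∈ e.1, lam x)
    (hc : (eA S).card + 5 * (eT S).card = 8) :
    (∃ x, S = starV x) ∨ ∃ T, S = triV T := by
  classical
  -- consequence of `bad_edges`
  have key : (Finset.univ.filter fun e : E => ∑ x ∈ e.1, lam x ≠ 0).card ≤ 8 →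
      ∃ x, ∀ e : E, ∑ y ∈ e.1, lam y = if x ∈ e.1 then lam x else 0 := by
    intro hb
    have h8 := bad_edges lam hb
    have hcompl : (Finset.univ.filter fun x : Fin 9 => ¬ lam x = 0).card ≤ 1 := by
      have := Finset.card_filter_add_card_filter_not (s := (Finset.univ : Finset (Fin 9)))
        (fun x => lam x = 0)
      rw [Finset.card_univ, Fintype.card_fin] at this
      omega
    have hx : ∃ x : Fin 9, ∀ y, y ≠ x → lam y = 0 := by
      rw [Finset.card_le_one_iff_subset_singleton] at hcompl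
      obtain ⟨x, hx⟩ := hcompl
      refine ⟨x, fun y hy => ?_⟩
      by_contra hne
      exact hy (Finset.mem_singleton.1 (hx (Finset.mem_filter.2 ⟨Finset.mem_univ _, hne⟩)))
    obtain ⟨x, hx⟩ := hx
    refine ⟨x, fun e => ?_⟩
    split_ifs with hxe
    · exact Finset.sum_eq_single_of_mem x hxe fun y _ hy => hx y hy
    · exact Finset.sum_eq_zero fun y hy => hx y (fun e' => hxe (e' ▸ hy))
  have hT1 : (eT S).card = 0 ∨ (eT S).card = 1 := by omega
  rcases hT1 with hT | hT
  · left
    have hA : (eA S).card = 8 := by omega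
    rw [Finset.card_eq_zero] at hT
    have hg : ∀ e, gg S e = if e ∈ eA S then 1 else 0 := by
      intro e
      unfold gg
      rw [hT, Finset.sum_empty, sub_zero]
    have hbad : (Finset.univ.filter fun e : E => ∑ x ∈ e.1, lam x ≠ 0) = eA S := by
      ext e
      rw [Finset.mem_filter, ← h e, hg e]
      by_cases he : e ∈ eA S <;> simp [he]
    obtain ⟨x, hx⟩ := key (by rw [hbad, hA])
    refine ⟨x, ext_of ?_ (by rw [eT_starV, hT])⟩
    rw [eA_starV]
    have hlx : lam x ≠ 0 := by
      intro h0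
      have : eA S = ∅ := by
        rw [← hbad]
        ext e
        rw [Finset.mem_filter, hx e, h0]
        simp
      rw [this] at hA
      simp at hA
    rw [← hbad]
    ext e
    rw [Finset.mem_filter, hx e, mem_star]
    by_cases hxe : x ∈ e.1 <;> simp [hxe, hlx]
  · right
    have hA : (eA S).card = 3 := by omega
    obtain ⟨T, hT'⟩ := Finset.card_eq_one.1 hT
    refine ⟨T, ext_of ?_ (by rw [eT_triV, hT'])⟩
    rw [eA_triV]
    have hg : ∀ e, gg S e = (if e ∈ eA S then 1 else 0) - (if e ∈ T.1 then 1 else 0) := by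
      intro e
      unfold gg
      rw [hT', Finset.sum_singleton]
    have hbad : (Finset.univ.filter fun e : E => ∑ x ∈ e.1, lam x ≠ 0) ⊆ eA S ∪ T.1 := by
      intro e he
      rw [Finset.mem_filter, ← h e, hg e] at he
      rw [Finset.mem_union]
      by_contra hcon
      push Not at hcon
      apply he.2
      simp [hcon.1, hcon.2]
    have hcard : (Finset.univ.filter fun e : E => ∑ x ∈ e.1, lam x ≠ 0).card ≤ 6 := by
      refine (Finset.card_le_card hbad).trans ((Finset.card_union_le _ _).trans ?_)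
      rw [hA, T.2.1]
    obtain ⟨x, hx⟩ := key (by omega)
    have hlx : lam x = 0 := by
      by_contra h0
      have : (Finset.univ.filter fun e : E => ∑ x ∈ e.1, lam x ≠ 0) = star x := by
        ext e
        rw [Finset.mem_filter, hx e, mem_star]
        by_cases hxe : x ∈ e.1 <;> simp [hxe, h0]
      rw [this, star_card] at hcard
      omega
    ext e
    have h1 := h e
    rw [hg e, hx e, hlx] at h1
    by_cases h2 : e ∈ eA S <;> by_cases h3 : e ∈ T.1 <;> simp [h2, h3] at h1 ⊢

/-- The complement of `H` is equistable. -/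
theorem Hc_equistable : ∃ φ : V → ℝ, (∀ v, 0 < φ v) ∧ ∀ S : Finset V,
    (Maximal (fun s : Finset V => Hᶜ.IsIndepSet (s : Set V)) S ↔ ∑ v ∈ S, φ v = 1) := by
  classical
  -- the space of functions with vanishing star sums
  let Lx : Fin 9 → ((E → ℝ) →ₗ[ℝ] ℝ) := fun x => dotL fun e => if x ∈ e.1 then 1 else 0
  let W : Submodule ℝ (E → ℝ) := ⨅ x, LinearMap.ker (Lx x)
  -- a generic element
  let ι := {S : Finset V // ∃ ψ ∈ W, dotL (gg S) ψ ≠ 0}
  obtain ⟨ψ, hψW, hψ⟩ : ∃ ψ ∈ W, ∀ i : ι, dotL (gg i.1) ψ ≠ 0 :=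
    Module.Dual.exists_forall_mem_ne_zero_of_forall_exists W (fun i : ι => dotL (gg i.1))
      (fun i => i.2)
  have hstar : ∀ x, ∑ e ∈ star x, ψ e = 0 := by
    intro x
    have h1 : ψ ∈ LinearMap.ker (Lx x) := (Submodule.mem_iInf _).1 hψW x
    rw [LinearMap.mem_ker] at h1
    have h2 : Lx x ψ = ∑ e, (if x ∈ e.1 then 1 else 0) * ψ e := dotL_apply _ _
    rw [h2] at h1
    simp_rw [ite_mul, one_mul, zero_mul] at h1
    rw [← Finset.sum_filter] at h1
    exact h1
  obtain ⟨M, hM1, hMS⟩ : ∃ M : ℝ, 0 < M ∧ ∀ S : Finset V, |∑ e, gg S e * ψ e| < M := by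
    obtain ⟨M, hM⟩ := (Set.finite_range (fun S : Finset V => |∑ e, gg S e * ψ e|)).bddAbove
    refine ⟨|M| + 1, by positivity, fun S => ?_⟩
    have h1 : |∑ e, gg S e * ψ e| ≤ M := hM ⟨S, rfl⟩
    linarith [le_abs_self M]
  let ε : ℝ := 1 / (16 * M)
  have hε : 0 < ε := by positivity
  have hsmall : ∀ S : Finset V, |ε * ∑ e, gg S e * ψ e| < 1 / 16 := by
    intro S
    rw [abs_mul, abs_of_pos hε]
    calc ε * |∑ e, gg S e * ψ e| < ε * M := by
          exact mul_lt_mul_of_pos_left (hMS S) hε
      _ = 1 / 16 := by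
          show 1 / (16 * M) * M = 1 / 16
          field_simp
  refine ⟨ph ε ψ, ?_, ?_⟩
  · intro v
    have h1 := sum_ph ε ψ {v}
    rw [Finset.sum_singleton] at h1
    have h2 := abs_lt.1 (hsmall {v})
    have h3 : (1 : ℝ) ≤ (((eA {v}).card : ℝ) + 5 * ((eT {v}).card : ℝ)) := by
      rcases v with e | T
      · have : 1 ≤ (eA {(Sum.inl e : V)}).card := Finset.card_pos.2 ⟨e, by simp [eA]⟩
        have h4 : (1 : ℝ) ≤ ((eA {(Sum.inl e : V)}).card : ℝ) := by exact_mod_cast this
        have h5 : (0 : ℝ) ≤ ((eT {(Sum.inl e : V)}).card : ℝ) := Nat.cast_nonneg _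
        linarith
      · have : 1 ≤ (eT {(Sum.inr T : V)}).card := Finset.card_pos.2 ⟨T, by simp [eT]⟩
        have h4 : (1 : ℝ) ≤ ((eT {(Sum.inr T : V)}).card : ℝ) := by exact_mod_cast this
        have h5 : (0 : ℝ) ≤ ((eA {(Sum.inr T : V)}).card : ℝ) := Nat.cast_nonneg _
        linarith
    rw [h1]
    linarith [h2.1]
  · intro S
    have hfun : (fun s : Finset V => Hᶜ.IsIndepSet (s : Set V)) = IsCl := by
      funext s
      exact propext (compl_indep s)
    rw [hfun, sum_ph]
    constructor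
    · intro hS
      rcases max_cl hS with ⟨x, rfl⟩ | ⟨T, rfl⟩
      · rw [sum_gg, eA_starV, eT_starV, hstar, star_card]
        norm_num
      · rw [sum_gg, eA_triV, eT_triV, T.2.1]
        norm_num
    · intro hS
      have h2 := abs_lt.1 (hsmall S)
      -- the integer part
      have h3 : (eA S).card + 5 * (eT S).card = 8 := by
        have h4 : (((eA S).card : ℝ) + 5 * ((eT S).card : ℝ)) < 9 := by linarith [h2.1]
        have h5 : (7 : ℝ) < (((eA S).card : ℝ) + 5 * ((eT S).card : ℝ)) := by linarith [h2.2]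
        have h6 : (eA S).card + 5 * (eT S).card < 9 := by exact_mod_cast h4
        have h7 : 7 < (eA S).card + 5 * (eT S).card := by exact_mod_cast h5
        omega
      have h4 : ∑ e, gg S e * ψ e = 0 := by
        have h5 : (((eA S).card : ℝ) + 5 * ((eT S).card : ℝ)) = 8 := by exact_mod_cast h3
        rw [h5] at hS
        have : ε * ∑ e, gg S e * ψ e = 0 := by linarith
        rcases mul_eq_zero.1 this with h | h
        · exact absurd h hε.ne'
        · exact h
      have h5 : ¬ ∃ ψ ∈ W, dotL (gg S) ψ ≠ 0 := by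
        intro hex
        exact hψ ⟨S, hex⟩ (by rw [dotL_apply]; exact h4)
      push Not at h5
      have h6 : dotL (gg S) ∈ Submodule.span ℝ (Set.range Lx) := by
        apply mem_span_of_iInf_ker_le_ker
        intro ψ' hψ'
        exact LinearMap.mem_ker.2 (h5 ψ' hψ')
      obtain ⟨lam, hlam⟩ := (Submodule.mem_span_range_iff_exists_fun ℝ).1 h6
      have h7 : ∀ e : E, gg S e = ∑ x ∈ e.1, lam x := by
        intro e
        have h8 := LinearMap.congr_fun hlam (Pi.single e 1)
        rw [LinearMap.sum_apply] at h8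
        have h9 : ∀ g : E → ℝ, dotL g (Pi.single e 1) = g e := by
          intro g
          rw [dotL_apply, Finset.sum_eq_single e]
          · simp
          · intro b _ hb
            rw [Pi.single_eq_of_ne hb]
            simp
          · intro hne
            exact absurd (Finset.mem_univ e) hne
        simp only [LinearMap.smul_apply, smul_eq_mul, Lx] at h8
        simp_rw [h9] at h8
        rw [← h8]
        simp_rw [mul_ite, mul_one, mul_zero]
        rw [← Finset.sum_filter]
        congr 1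
        ext x
        simp
      rcases claimB S lam h7 h3 with ⟨x, rfl⟩ | ⟨T, rfl⟩
      · exact max_starV x
      · exact max_triV T

/-- The complement of `H` is not a general partition graph. -/
theorem Hc_not_gp : ¬ ∃ n : ℕ, ∃ U : V → Finset (Fin n),
    (∀ v, (U v).Nonempty) ∧
    (∀ u v, u ≠ v → (Hᶜ.Adj u v ↔ ¬ Disjoint (U u) (U v))) ∧
    ∀ S : Finset V, Maximal (fun s : Finset V => Hᶜ.IsIndepSet (s : Set V)) S →
      (∀ u ∈ S, ∀ v ∈ S, u ≠ v → Disjoint (U u) (U v)) ∧
      S.biUnion U = Finset.univ := by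
  classical
  rintro ⟨n, U, hne, _, hS⟩
  have hfun : (fun s : Finset V => Hᶜ.IsIndepSet (s : Set V)) = IsCl := by
    funext s
    exact propext (compl_indep s)
  rw [hfun] at hS
  obtain ⟨u, _⟩ := hne (Sum.inl ⟨{0, 1}, by decide⟩)
  -- the edges whose set contains u form a perfect matching of K_9
  let C : Finset E := Finset.univ.filter fun e => u ∈ U (Sum.inl e)
  have hone : ∀ x : Fin 9, (C.filter fun e => x ∈ e.1).card = 1 := by
    intro x
    obtain ⟨h1, h2⟩ := hS _ (max_starV x)
    have hu : u ∈ (starV x).biUnion U := by rw [h2]; exact Finset.mem_univ _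
    obtain ⟨v, hv, huv⟩ := Finset.mem_biUnion.1 hu
    rcases v with e | T
    · rw [Finset.card_eq_one]
      refine ⟨e, ?_⟩
      ext e'
      rw [Finset.mem_filter, Finset.mem_filter, Finset.mem_singleton]
      constructor
      · rintro ⟨⟨_, h3⟩, h4⟩
        by_contra hne'
        exact Finset.disjoint_left.1 (h1 _ (inl_mem_starV.2 h4) _ hv
          (fun h => hne' (Sum.inl_injective h))) h3 huv
      · rintro rfl
        exact ⟨⟨Finset.mem_univ _, huv⟩, inl_mem_starV.1 hv⟩
    · exact absurd hv inr_mem_starV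
  have h9 : ∑ x : Fin 9, (C.filter fun e => x ∈ e.1).card = 9 := by
    rw [Finset.sum_congr rfl fun x _ => hone x]
    simp
  have h2 : ∑ x : Fin 9, (C.filter fun e => x ∈ e.1).card = ∑ e ∈ C, 2 := by
    simp_rw [Finset.card_filter]
    rw [Finset.sum_comm]
    apply Finset.sum_congr rfl
    intro e _
    rw [← Finset.card_filter]
    have he : Finset.univ.filter (fun x : Fin 9 => x ∈ e.1) = e.1 := by
      ext x
      simp
    rw [he, e.2]
  rw [h9, Finset.sum_const, smul_eq_mul] at h2
  omega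

end Pool.Agent.H430R3.CoEq
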