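import Mathlib
import Pool.Agent.Helper636.BwTree

/-!
Helly property of subtrees of a finite tree.
-/

set_option autoImplicit false

namespace Pool.Agent.H430R3

open Pool.Agent.Helper636.Bw

variable {U : Type} {T : SimpleGraph U}

/-- From a node `t` one can walk towards any other node through a neighbour of `t`. -/
lemma exists_dir (hT : T.IsTree) {t z : U} (h : z ≠ t) :
    ∃ u, T.Adj t u ∧ Rch T u t z := by
  have hr : T.Reachable t z := hT.connected.preconnected t z
  rw [SimpleGraph.reachable_iff_reflTransGen] at hr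
  induction hr with
  | refl => exact absurd rfl h
  | tail hyz hadj ih =>
    rename_i y z
    by_cases hy : y = t
    · subst hy
      exact ⟨z, hadj, SimpleGraph.Reachable.refl _⟩
    · obtain ⟨u, hu, hur⟩ := ih hy
      refine ⟨u, hu, ?_⟩
      refine hur.trans (SimpleGraph.Adj.reachable (adj_del.2 ⟨hadj, ?_⟩))
      intro he
      rw [Sym2.eq_iff] at he
      rcases he with ⟨_, h2⟩ | ⟨h1, _⟩
      · exact h h2
      · exact hy h1

/-- A connected set avoiding `t` lies in one direction. -/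
lemma exists_dir_set (hT : T.IsTree) {t : U} {S : Set U} (hS : (T.induce S).Connected)
    (ht : t ∉ S) : ∃ u, T.Adj t u ∧ ∀ z ∈ S, Rch T u t z := by
  obtain ⟨z0⟩ := hS.nonempty
  have hne : (z0 : U) ≠ t := fun h => ht (h ▸ z0.2)
  obtain ⟨u, hu, hur⟩ := exists_dir hT hne
  refine ⟨u, hu, fun z hz => ?_⟩
  have hr := hS.preconnected z0 ⟨z, hz⟩
  rw [SimpleGraph.reachable_iff_reflTransGen] at hr
  have key : ∀ w : S, Relation.ReflTransGen (T.induce S).Adj z0 w → Rch T u t (w : U) := by
    intro w hw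
    induction hw with
    | refl => exact hur
    | @tail y w _ hadj ih =>
      refine ih.trans (SimpleGraph.Adj.reachable (adj_del.2 ⟨hadj, ?_⟩))
      intro he
      rw [Sym2.eq_iff] at he
      rcases he with ⟨_, h2⟩ | ⟨h1, _⟩
      · exact ht (h2 ▸ w.2)
      · exact ht (h1 ▸ y.2)
  exact key _ hr

/-- Helly property: pairwise intersecting subtrees of a finite tree have a common node. -/
theorem helly [Finite U] (hT : T.IsTree) {ι : Type*} (S : ι → Set U)
    (hS : ∀ i, (T.induce (S i)).Connected) (hp : ∀ i j, (S i ∩ S j).Nonempty) :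
    ∃ t, ∀ i, t ∈ S i := by
  by_contra hcon
  push Not at hcon
  -- a pair (t,u): u neighbour of t, some S i in the direction u, not containing t
  have hex : ∃ p : U × U, T.Adj p.1 p.2 ∧ ∃ i, ∀ z ∈ S i, Rch T p.2 p.1 z := by
    obtain ⟨t⟩ := hT.connected.nonempty
    obtain ⟨i, hi⟩ := hcon t
    obtain ⟨u, hu, hz⟩ := exists_dir_set hT (hS i) hi
    exact ⟨(t, u), hu, i, hz⟩
  let W : U × U → ℕ := fun p => {z | Rch T p.2 p.1 z}.ncard
  obtain ⟨⟨t, u⟩, ⟨hadj, i, hi⟩, hmin⟩ := exists_minimalFor_of_wellFoundedLT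
    (fun p : U × U => T.Adj p.1 p.2 ∧ ∃ i, ∀ z ∈ S i, Rch T p.2 p.1 z) W hex
  simp only at hadj hi hmin
  obtain ⟨j, hj⟩ := hcon u
  obtain ⟨w, hw, hwz⟩ := exists_dir_set hT (hS j) hj
  have hac := hT.isAcyclic
  by_cases hwt : w = t
  · subst hwt
    obtain ⟨z, hz1, hz2⟩ := hp i j
    have h1 : Rch T u w z := hi z hz1
    have h2 : Rch T w u z := hwz z hz2
    have h3 : Rch T u w w := by
      refine SimpleGraph.Reachable.trans h1 ?_
      have h4 : (T.deleteEdges {s(w, u)}).Reachable z w := SimpleGraph.Reachable.symm h2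
      rwa [Sym2.eq_swap] at h4
    exact rch_bridge hac hadj.symm h3
  · have h3 : {z | Rch T w u z} ⊂ {z | Rch T u t z} := by
      refine ⟨fun z hz => rch_sub hac hw hwt hz, fun hcon' => ?_⟩
      exact rch_bridge hac hw.symm (hcon' (SimpleGraph.Reachable.refl u))
    have h4 := Set.ncard_lt_ncard h3 (Set.toFinite _)
    have h5 := hmin (j := (u, w)) ⟨hw, j, hwz⟩ (le_of_lt h4)
    simp only [W] at h5
    omega

end Pool.Agent.H430R3
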