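import Pool.Agent.H430R3.TD

/-! Balanced separations of small measure give tree decompositions of small measure. -/

set_option autoImplicit false
set_option linter.unusedSectionVars false

namespace Pool.Agent.H430R3.TD

open Finset

variable {V : Type} [Fintype V] [DecidableEq V] {G : SimpleGraph V} {m : Finset V → ℕ}

lemma IsTD.mono_root {U W W' : Finset V} {C n : ℕ} {par : ℕ → ℕ} {B : ℕ → Finset V}
    (h : IsTD G m U W' C n par B) (hW : W ⊆ W') : IsTD G m U W C n par B :=
  { h with root := hW.trans h.root }

theorem td_of_sep (h0 : m ∅ = 0) (h1 : ∀ v, m {v} ≤ 1) (hmono : ∀ X Y, X ⊆ Y → m X ≤ m Y)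
    (hsub : ∀ X Y, m (X ∪ Y) ≤ m X + m Y) (c k : ℕ)
    (hP : ∀ W, ∃ Q : Finset V, Q.card = m W ∧ ∀ S P R : Finset V, (∀ v, v ∈ S ∨ v ∈ P ∨ v ∈ R) →
      Disjoint P R → Disjoint S P → Disjoint S R → (∀ x ∈ P, ∀ y ∈ R, ¬ G.Adj x y) →
      m (W ∩ P) ≤ (Q ∩ P).card + c * m S)
    (hsep : ∀ Q : Finset V, Q.card = 3 * ((c + 1) * k) + 2 → ∃ S P R : Finset V,
      (∀ v, v ∈ S ∨ v ∈ P ∨ v ∈ R) ∧ Disjoint P R ∧ Disjoint S P ∧ Disjoint S R ∧
      (∀ x ∈ P, ∀ y ∈ R, ¬ G.Adj x y) ∧ m S ≤ k ∧
      (Q ∩ P).card ≤ 2 * ((c + 1) * k) + 1 ∧ (Q ∩ R).card ≤ 2 * ((c + 1) * k) + 1) :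
    ∀ U W : Finset V, W ⊆ U → m W ≤ 3 * ((c + 1) * k) + 2 →
      ∃ n par B, IsTD G m U W (3 * ((c + 1) * k) + 3 + k) n par B := by
  have main : ∀ N : ℕ, ∀ U W : Finset V, (U \ W).card = N → W ⊆ U →
      m W ≤ 3 * ((c + 1) * k) + 2 →
      ∃ n par B, IsTD G m U W (3 * ((c + 1) * k) + 3 + k) n par B := by
    intro N
    induction N using Nat.strong_induction_on with
    | _ N ih =>
      intro U W hN hWU hWL
      by_cases hUW : U \ W = ∅
      · have : U ⊆ W := sdiff_eq_empty_iff_subset.1 hUW
        have hUW' : U = W := subset_antisymm this hWU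
        refine ⟨1, _, _, IsTD.single U W hWU _ ?_⟩
        rw [hUW']
        omega
      · obtain ⟨z, hz⟩ := nonempty_iff_ne_empty.2 hUW
        have hzU : z ∈ U := (mem_sdiff.1 hz).1
        have hzW : z ∉ W := (mem_sdiff.1 hz).2
        have hm1 : m (insert z W) ≤ m W + 1 := by
          rw [insert_eq]
          have := hsub {z} W
          have := h1 z
          omega
        by_cases hlt : m W < 3 * ((c + 1) * k) + 2
        · have hcard : (U \ insert z W).card < N := by
            rw [← hN]
            apply card_lt_card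
            rw [ssubset_iff_of_subset (sdiff_subset_sdiff Subset.rfl (subset_insert _ _))]
            exact ⟨z, hz, fun h => (mem_sdiff.1 h).2 (mem_insert_self _ _)⟩
          obtain ⟨n, par, B, hB⟩ := ih _ hcard U (insert z W) rfl
            (insert_subset hzU hWU) (by omega)
          exact ⟨n, par, B, hB.mono_root (subset_insert _ _)⟩
        · have hWeq : m W = 3 * ((c + 1) * k) + 2 := by omega
          obtain ⟨Q, hQc, hQ⟩ := hP W
          obtain ⟨S, P, R, hcov, hPR, hSP, hSR, hne, hS, hQP, hQR⟩ := hsep Q (hQc.trans hWeq)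
          have hb1 := hQ S P R hcov hPR hSP hSR hne
          have hb2 := hQ S R P (fun v => by rcases hcov v with h | h | h <;> tauto) hPR.symm
            hSR hSP (fun x hx y hy hxy => hne y hy x hx hxy.symm)
          have hSU : m (U ∩ S) ≤ k := (hmono _ _ inter_subset_right).trans hS
          have hck : c * m S ≤ c * k := Nat.mul_le_mul_left _ hS
          have hWs : insert z W ⊆ U := insert_subset hzU hWU
          have hins : ∀ X : Finset V, m (insert z W ∩ X) ≤ m (W ∩ X) + 1 := by
            intro X
            have h3 : insert z W ∩ X ⊆ {z} ∪ (W ∩ X) := by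
              intro x hx
              rw [mem_inter, mem_insert] at hx
              rw [mem_union, mem_singleton, mem_inter]
              tauto
            have := hmono _ _ h3
            have := hsub {z} (W ∩ X)
            have := h1 z
            omega
          have e1 : (c + 1) * k = c * k + k := by ring
          have hW1 : m ((insert z W ∩ P) ∪ (U ∩ S)) ≤ 3 * ((c + 1) * k) + 2 := by
            have := hsub (insert z W ∩ P) (U ∩ S)
            have := hins P
            omega
          have hW2 : m ((insert z W ∩ R) ∪ (U ∩ S)) ≤ 3 * ((c + 1) * k) + 2 := by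
            have := hsub (insert z W ∩ R) (U ∩ S)
            have := hins R
            omega
          have hlt' : ∀ P' : Finset V, (((U ∩ P') ∪ (U ∩ S)) \ ((insert z W ∩ P') ∪ (U ∩ S))).card
              < N := by
            intro P'
            rw [← hN]
            apply card_lt_card
            rw [ssubset_iff_of_subset]
            · refine ⟨z, hz, fun h => ?_⟩
              simp only [mem_sdiff, mem_union, mem_inter, mem_insert, true_or, true_and] at h
              tauto
            · intro x hx
              simp only [mem_sdiff, mem_union, mem_inter, mem_insert] at hx ⊢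
              tauto
          obtain ⟨n₁, par₁, B₁, h₁⟩ := ih _ (hlt' P) _ ((insert z W ∩ P) ∪ (U ∩ S)) rfl
            (union_subset_union_left (inter_subset_inter_right hWs)) hW1
          obtain ⟨n₂, par₂, B₂, h₂⟩ := ih _ (hlt' R) _ ((insert z W ∩ R) ∪ (U ∩ S)) rfl
            (union_subset_union_left (inter_subset_inter_right hWs)) hW2
          have hUeq := set_fact1 (U := U) hcov
          refine ⟨n₁ + n₂ + 1, jpar n₁ par₁ par₂, jbag (insert z W ∪ (U ∩ S)) n₁ B₁ B₂, ?_⟩
          have hj := IsTD.join (W := W) (D := insert z W ∪ (U ∩ S)) h₁ h₂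
            (by have := hsub (insert z W) (U ∩ S); omega)
            (by rw [hUeq]; exact union_subset hWs inter_subset_left)
            ((subset_insert _ _).trans subset_union_left) (set_fact2 hSP) (set_fact2 hSR)
            (set_fact3 hPR) (by rw [hUeq]; exact set_fact4 hcov hne)
          rwa [hUeq] at hj
  intro U W
  exact main _ U W rfl

end Pool.Agent.H430R3.TD
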