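import Mathlib

/-! Rooted tree decompositions with an arbitrary measure `m` on bags (adapted from
`Pool.Agent.H112R3.TA.TreeDec`, where the measure is the independence number). -/

set_option autoImplicit false
set_option linter.unusedSectionVars false

namespace Pool.Agent.H430R3.TD

open Finset

variable {V : Type} [Fintype V] [DecidableEq V] {G : SimpleGraph V} {m : Finset V → ℕ}

/-- node `i` is the top node of `v` -/
def Top (par : ℕ → ℕ) (B : ℕ → Finset V) (v : V) (i : ℕ) : Prop :=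
  v ∈ B i ∧ (i = 0 ∨ v ∉ B (par i))

/-- rooted tree decomposition given by a parent function, `W` being contained in the root bag -/
structure IsTD (G : SimpleGraph V) (m : Finset V → ℕ) (U W : Finset V) (C n : ℕ) (par : ℕ → ℕ)
    (B : ℕ → Finset V) : Prop where
  pos : 0 < n
  lt : ∀ i, 0 < i → i < n → par i < i
  root : W ⊆ B 0
  sub : ∀ i, i < n → B i ⊆ U
  cov : ∀ v ∈ U, ∃ i, i < n ∧ v ∈ B i
  edge : ∀ u ∈ U, ∀ v ∈ U, G.Adj u v → ∃ i, i < n ∧ u ∈ B i ∧ v ∈ B i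
  top : ∀ v i j, i < n → j < n → Top par B v i → Top par B v j → i = j
  wid : ∀ i, i < n → m (B i) ≤ C

/-- the single bag -/
lemma IsTD.single (U W : Finset V) (hWU : W ⊆ U) (C : ℕ) (h : m U ≤ C) :
    IsTD G m U W C 1 (fun _ => 0) (fun _ => U) where
  pos := one_pos
  lt := by intro i h1 h2; omega
  root := hWU
  sub := fun _ _ => Subset.rfl
  cov := fun v hv => ⟨0, one_pos, hv⟩
  edge := fun u hu v hv _ => ⟨0, one_pos, hu, hv⟩
  top := by intro v i j hi hj _ _; omega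
  wid := fun _ _ => h

/-- parent function of the join -/
def jpar (n₁ : ℕ) (par₁ par₂ : ℕ → ℕ) (i : ℕ) : ℕ :=
  if i ≤ 1 then 0 else
    if i ≤ n₁ then 1 + par₁ (i - 1) else
      if i = n₁ + 1 then 0 else 1 + n₁ + par₂ (i - 1 - n₁)

/-- bags of the join -/
def jbag (D : Finset V) (n₁ : ℕ) (B₁ B₂ : ℕ → Finset V) (i : ℕ) : Finset V :=
  if i = 0 then D else if i ≤ n₁ then B₁ (i - 1) else B₂ (i - 1 - n₁)

lemma IsTD.join {U₁ U₂ W₁ W₂ W D : Finset V} {C n₁ n₂ : ℕ} {par₁ par₂ : ℕ → ℕ}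
    {B₁ B₂ : ℕ → Finset V} (h₁ : IsTD G m U₁ W₁ C n₁ par₁ B₁) (h₂ : IsTD G m U₂ W₂ C n₂ par₂ B₂)
    (hD : m D ≤ C) (hDU : D ⊆ U₁ ∪ U₂) (hWD : W ⊆ D)
    (hD₁ : D ∩ U₁ ⊆ W₁) (hD₂ : D ∩ U₂ ⊆ W₂) (hU : U₁ ∩ U₂ ⊆ D)
    (hedge : ∀ u ∈ U₁ ∪ U₂, ∀ v ∈ U₁ ∪ U₂, G.Adj u v → (u ∈ U₁ ∧ v ∈ U₁) ∨ (u ∈ U₂ ∧ v ∈ U₂)) :
    IsTD G m (U₁ ∪ U₂) W C (n₁ + n₂ + 1) (jpar n₁ par₁ par₂) (jbag D n₁ B₁ B₂) := by
  have p1 := h₁.pos
  have p2 := h₂.pos
  have b0 : jbag D n₁ B₁ B₂ 0 = D := by simp [jbag]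
  have b1 : ∀ i, i < n₁ → jbag D n₁ B₁ B₂ (i + 1) = B₁ i := by
    intro i hi
    simp only [jbag]
    rw [if_neg (by omega), if_pos (by omega)]
    congr 1
  have b2 : ∀ i, jbag D n₁ B₁ B₂ (i + 1 + n₁) = B₂ i := by
    intro i
    simp only [jbag]
    rw [if_neg (by omega), if_neg (by omega)]
    congr 1
    omega
  have q1 : jpar n₁ par₁ par₂ 1 = 0 := by simp [jpar]
  have q1' : ∀ i, 0 < i → i < n₁ → jpar n₁ par₁ par₂ (i + 1) = par₁ i + 1 := by
    intro i h0 hi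
    simp only [jpar]
    rw [if_neg (by omega), if_pos (by omega), show i + 1 - 1 = i by omega]
    omega
  have q2 : jpar n₁ par₁ par₂ (0 + 1 + n₁) = 0 := by
    simp only [jpar]
    rw [if_neg (by omega), if_neg (by omega), if_pos (by omega)]
  have q2' : ∀ i, 0 < i → jpar n₁ par₁ par₂ (i + 1 + n₁) = par₂ i + 1 + n₁ := by
    intro i h0
    simp only [jpar]
    rw [if_neg (by omega), if_neg (by omega), if_neg (by omega),
      show i + 1 + n₁ - 1 - n₁ = i by omega]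
    omega
  have cases' : ∀ i, i < n₁ + n₂ + 1 → i = 0 ∨ (∃ k, k < n₁ ∧ i = k + 1) ∨
      (∃ k, k < n₂ ∧ i = k + 1 + n₁) := by
    intro i hi
    rcases Nat.eq_zero_or_pos i with h | h
    · exact Or.inl h
    · by_cases h' : i ≤ n₁
      · exact Or.inr (Or.inl ⟨i - 1, by omega, by omega⟩)
      · exact Or.inr (Or.inr ⟨i - 1 - n₁, by omega, by omega⟩)
  -- tops in the first part
  have t1 : ∀ v k, k < n₁ → Top (jpar n₁ par₁ par₂) (jbag D n₁ B₁ B₂) v (k + 1) →
      Top par₁ B₁ v k ∧ v ∉ D := by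
    intro v k hk ht
    have hv : v ∈ B₁ k := by
      have := ht.1
      rwa [b1 k hk] at this
    have htop : Top par₁ B₁ v k := by
      rcases Nat.eq_zero_or_pos k with h | h
      · exact ⟨hv, Or.inl h⟩
      · refine ⟨hv, Or.inr ?_⟩
        rcases ht.2 with h' | h'
        · omega
        · rw [q1' k h hk, b1 _ ((h₁.lt k h hk).trans hk)] at h'
          exact h'
    refine ⟨htop, fun hvD => ?_⟩
    have hvW : v ∈ B₁ 0 := h₁.root (hD₁ (mem_inter.2 ⟨hvD, h₁.sub k hk hv⟩))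
    have hk0 : k = 0 := h₁.top v k 0 hk p1 htop ⟨hvW, Or.inl rfl⟩
    subst hk0
    rcases ht.2 with h' | h'
    · omega
    · rw [q1, b0] at h'
      exact h' hvD
  have t2 : ∀ v k, k < n₂ → Top (jpar n₁ par₁ par₂) (jbag D n₁ B₁ B₂) v (k + 1 + n₁) →
      Top par₂ B₂ v k ∧ v ∉ D := by
    intro v k hk ht
    have hv : v ∈ B₂ k := by
      have := ht.1
      rwa [b2 k] at this
    have htop : Top par₂ B₂ v k := by
      rcases Nat.eq_zero_or_pos k with h | h
      · exact ⟨hv, Or.inl h⟩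
      · refine ⟨hv, Or.inr ?_⟩
        rcases ht.2 with h' | h'
        · omega
        · rw [q2' k h, b2 _] at h'
          exact h'
    refine ⟨htop, fun hvD => ?_⟩
    have hvW : v ∈ B₂ 0 := h₂.root (hD₂ (mem_inter.2 ⟨hvD, h₂.sub k hk hv⟩))
    have hk0 : k = 0 := h₂.top v k 0 hk p2 htop ⟨hvW, Or.inl rfl⟩
    subst hk0
    rcases ht.2 with h' | h'
    · omega
    · rw [q2, b0] at h'
      exact h' hvD
  refine ⟨by omega, ?_, ?_, ?_, ?_, ?_, ?_, ?_⟩
  · intro i h0 hi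
    rcases cases' i hi with rfl | ⟨k, hk, rfl⟩ | ⟨k, hk, rfl⟩
    · omega
    · rcases Nat.eq_zero_or_pos k with h | h
      · subst h; rw [q1]; omega
      · rw [q1' k h hk]
        have := h₁.lt k h hk
        omega
    · rcases Nat.eq_zero_or_pos k with h | h
      · subst h; rw [q2]; omega
      · rw [q2' k h]
        have := h₂.lt k h hk
        omega
  · rw [b0]; exact hWD
  · intro i hi
    rcases cases' i hi with rfl | ⟨k, hk, rfl⟩ | ⟨k, hk, rfl⟩
    · rw [b0]; exact hDU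
    · rw [b1 k hk]; exact (h₁.sub k hk).trans subset_union_left
    · rw [b2 k]; exact (h₂.sub k hk).trans subset_union_right
  · intro v hv
    rcases mem_union.1 hv with h | h
    · obtain ⟨i, hi, hvi⟩ := h₁.cov v h
      exact ⟨i + 1, by omega, by rw [b1 i hi]; exact hvi⟩
    · obtain ⟨i, hi, hvi⟩ := h₂.cov v h
      exact ⟨i + 1 + n₁, by omega, by rw [b2 i]; exact hvi⟩
  · intro u hu v hv huv
    rcases hedge u hu v hv huv with ⟨h, h'⟩ | ⟨h, h'⟩
    · obtain ⟨i, hi, hui, hvi⟩ := h₁.edge u h v h' huv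
      exact ⟨i + 1, by omega, by rw [b1 i hi]; exact ⟨hui, hvi⟩⟩
    · obtain ⟨i, hi, hui, hvi⟩ := h₂.edge u h v h' huv
      exact ⟨i + 1 + n₁, by omega, by rw [b2 i]; exact ⟨hui, hvi⟩⟩
  · intro v i j hi hj ti tj
    rcases cases' i hi with rfl | ⟨k, hk, rfl⟩ | ⟨k, hk, rfl⟩ <;>
      rcases cases' j hj with rfl | ⟨l, hl, rfl⟩ | ⟨l, hl, rfl⟩
    · rfl
    · exact absurd (by have := ti.1; rwa [b0] at this) (t1 v l hl tj).2
    · exact absurd (by have := ti.1; rwa [b0] at this) (t2 v l hl tj).2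
    · exact absurd (by have := tj.1; rwa [b0] at this) (t1 v k hk ti).2
    · rw [h₁.top v k l hk hl (t1 v k hk ti).1 (t1 v l hl tj).1]
    · exact absurd (hU (mem_inter.2 ⟨h₁.sub k hk (t1 v k hk ti).1.1,
        h₂.sub l hl (t2 v l hl tj).1.1⟩)) (t1 v k hk ti).2
    · exact absurd (by have := tj.1; rwa [b0] at this) (t2 v k hk ti).2
    · exact absurd (hU (mem_inter.2 ⟨h₁.sub l hl (t1 v l hl tj).1.1,
        h₂.sub k hk (t2 v k hk ti).1.1⟩)) (t1 v l hl tj).2
    · rw [h₂.top v k l hk hl (t2 v k hk ti).1 (t2 v l hl tj).1]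
  · intro i hi
    rcases cases' i hi with rfl | ⟨k, hk, rfl⟩ | ⟨k, hk, rfl⟩
    · rw [b0]; exact hD
    · rw [b1 k hk]; exact h₁.wid k hk
    · rw [b2 k]; exact h₂.wid k hk

omit [Fintype V] in
lemma set_fact1 {S P Q U : Finset V} (hcov : ∀ v, v ∈ S ∨ v ∈ P ∨ v ∈ Q) :
    ((U ∩ P) ∪ (U ∩ S)) ∪ ((U ∩ Q) ∪ (U ∩ S)) = U := by
  ext x
  simp only [mem_union, mem_inter]
  have := hcov x
  tauto

omit [Fintype V] in
lemma set_fact2 {S P U W' : Finset V} (hSP : Disjoint S P) :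
    (W' ∪ (U ∩ S)) ∩ ((U ∩ P) ∪ (U ∩ S)) ⊆ (W' ∩ P) ∪ (U ∩ S) := by
  intro x hx
  have h3 : ¬ (x ∈ S ∧ x ∈ P) := fun h => disjoint_left.1 hSP h.1 h.2
  simp only [mem_union, mem_inter] at hx ⊢
  tauto

omit [Fintype V] in
lemma set_fact3 {S P Q U W' : Finset V} (hPQ : Disjoint P Q) :
    ((U ∩ P) ∪ (U ∩ S)) ∩ ((U ∩ Q) ∪ (U ∩ S)) ⊆ W' ∪ (U ∩ S) := by
  intro x hx
  have h3 : ¬ (x ∈ P ∧ x ∈ Q) := fun h => disjoint_left.1 hPQ h.1 h.2
  simp only [mem_union, mem_inter] at hx ⊢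
  tauto

omit [Fintype V] in
lemma set_fact4 {S P Q U : Finset V} (hcov : ∀ v, v ∈ S ∨ v ∈ P ∨ v ∈ Q)
    (hne : ∀ x ∈ P, ∀ y ∈ Q, ¬ G.Adj x y) :
    ∀ u ∈ U, ∀ v ∈ U, G.Adj u v →
      (u ∈ (U ∩ P) ∪ (U ∩ S) ∧ v ∈ (U ∩ P) ∪ (U ∩ S)) ∨
      (u ∈ (U ∩ Q) ∪ (U ∩ S) ∧ v ∈ (U ∩ Q) ∪ (U ∩ S)) := by
  intro u hu v hv huv
  simp only [mem_union, mem_inter]
  have h3 : ¬ (u ∈ P ∧ v ∈ Q) := fun h => hne u h.1 v h.2 huv
  have h4 : ¬ (v ∈ P ∧ u ∈ Q) := fun h => hne v h.1 u h.2 huv.symm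
  have h5 := hcov u
  have h6 := hcov v
  tauto

/-- the tree given by a parent function -/
def parTree (n : ℕ) (par : ℕ → ℕ) : SimpleGraph (Fin n) where
  Adj i j := (0 < i.val ∧ par i.val = j.val ∧ j.val < i.val) ∨
    (0 < j.val ∧ par j.val = i.val ∧ i.val < j.val)
  symm := ⟨by intro i j h; tauto⟩
  loopless := ⟨by intro i h; rcases h with h | h <;> omega⟩

/-- every node whose bag contains `v` is joined to the top node of `v` inside the bags
containing `v` -/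
lemma IsTD.exists_walk {U W : Finset V} {C n : ℕ} {par : ℕ → ℕ} {B : ℕ → Finset V}
    (h : IsTD G m U W C n par B) (v : V) (i : ℕ) (hi : i < n) (hv : v ∈ B i) :
    ∃ (k : ℕ) (hk : k < n), Top par B v k ∧
      ∃ p : (parTree n par).Walk ⟨i, hi⟩ ⟨k, hk⟩, ∀ x ∈ p.support, v ∈ B x.val := by
  induction i using Nat.strong_induction_on with
  | _ i ih =>
    by_cases ht : i = 0 ∨ v ∉ B (par i)
    · exact ⟨i, hi, ⟨hv, ht⟩, SimpleGraph.Walk.nil, by
        intro x hx
        simp only [SimpleGraph.Walk.support_nil, List.mem_singleton] at hx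
        rw [hx]; exact hv⟩
    · push Not at ht
      have hlt := h.lt i (by omega) hi
      obtain ⟨k, hk, htop, p, hp⟩ := ih (par i) hlt (hlt.trans hi) ht.2
      have hadj : (parTree n par).Adj ⟨i, hi⟩ ⟨par i, hlt.trans hi⟩ :=
        Or.inl ⟨by simp; omega, rfl, hlt⟩
      refine ⟨k, hk, htop, SimpleGraph.Walk.cons hadj p, ?_⟩
      intro x hx
      rw [SimpleGraph.Walk.support_cons, List.mem_cons] at hx
      rcases hx with rfl | hx
      · exact hv
      · exact hp x hx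

lemma parTree_isTree {n : ℕ} {par : ℕ → ℕ} (h0 : 0 < n)
    (hlt : ∀ i, 0 < i → i < n → par i < i) : (parTree n par).IsTree := by
  classical
  have hconn : (parTree n par).Connected := by
    have hreach : ∀ i : ℕ, ∀ hi : i < n, (parTree n par).Reachable ⟨i, hi⟩ ⟨0, h0⟩ := by
      intro i
      induction i using Nat.strong_induction_on with
      | _ i ih =>
        intro hi
        rcases Nat.eq_zero_or_pos i with h | h
        · subst h; exact SimpleGraph.Reachable.refl _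
        · have hl := hlt i h hi
          have hadj : (parTree n par).Adj ⟨i, hi⟩ ⟨par i, hl.trans hi⟩ := Or.inl ⟨h, rfl, hl⟩
          exact hadj.reachable.trans (ih _ hl _)
    have : Nonempty (Fin n) := ⟨⟨0, h0⟩⟩
    refine SimpleGraph.Connected.mk ?_
    intro x y
    exact (hreach x.val x.isLt).trans (hreach y.val y.isLt).symm
  rw [SimpleGraph.isTree_iff_connected_and_card]
  refine ⟨hconn, ?_⟩
  have h1 := hconn.card_vert_le_card_edgeSet_add_one
  have h2 : Nat.card (parTree n par).edgeSet ≤ n - 1 := by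
    -- every edge is the edge from some positive node to its parent
    let f : {i : Fin n // 0 < i.val} → (parTree n par).edgeSet := fun i =>
      ⟨s(i.1, ⟨par i.1.val, (hlt _ i.2 i.1.isLt).trans i.1.isLt⟩),
        Or.inl ⟨i.2, rfl, hlt _ i.2 i.1.isLt⟩⟩
    have hf : Function.Surjective f := by
      rintro ⟨e, he⟩
      induction e using Sym2.ind with
      | _ x y =>
        rw [SimpleGraph.mem_edgeSet] at he
        rcases he with ⟨h3, h4, h5⟩ | ⟨h3, h4, h5⟩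
        · refine ⟨⟨x, h3⟩, ?_⟩
          apply Subtype.ext
          simp only [f]
          congr 1
          exact Fin.ext h4
        · refine ⟨⟨y, h3⟩, ?_⟩
          apply Subtype.ext
          simp only [f]
          rw [Sym2.eq_swap]
          congr 1
          exact Fin.ext h4
    have h3 := Nat.card_le_card_of_surjective f hf
    refine h3.trans ?_
    have h4 : Nat.card {i : Fin n // 0 < i.val} = n - 1 := by
      rw [Nat.card_eq_fintype_card, Fintype.card_subtype]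
      have : (univ.filter (fun i : Fin n => 0 < i.val)) = univ.erase ⟨0, h0⟩ := by
        ext i
        simp only [mem_filter, mem_univ, true_and, mem_erase, and_true, ne_eq, Fin.ext_iff]
        omega
      rw [this, card_erase_of_mem (mem_univ _), card_univ, Fintype.card_fin]
    omega
  have hn : Nat.card (Fin n) = n := by simp
  rw [hn] at h1 ⊢
  omega

/-- conversion to a tree decomposition indexed by a tree -/
theorem IsTD.exists_tree {C n : ℕ} {par : ℕ → ℕ} {B : ℕ → Finset V} {W : Finset V}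
    (h : IsTD G m univ W C n par B) :
    (parTree n par).IsTree ∧ (∀ v : V, ∃ i : Fin n, v ∈ B i) ∧
      (∀ u v : V, G.Adj u v → ∃ i : Fin n, u ∈ B i ∧ v ∈ B i) ∧
      (∀ v : V, ∀ i j : Fin n, v ∈ B i → v ∈ B j →
        ∃ p : (parTree n par).Walk i j, ∀ x ∈ p.support, v ∈ B x) ∧
      (∀ i : Fin n, m (B i) ≤ C) := by
  refine ⟨parTree_isTree h.pos h.lt, ?_, ?_, ?_, ?_⟩
  · intro v
    obtain ⟨i, hi, hv⟩ := h.cov v (mem_univ _)
    exact ⟨⟨i, hi⟩, hv⟩
  · intro u v huv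
    obtain ⟨i, hi, hv⟩ := h.edge u (mem_univ _) v (mem_univ _) huv
    exact ⟨⟨i, hi⟩, hv⟩
  · intro v i j hi hj
    obtain ⟨k, hk, htop, p, hp⟩ := h.exists_walk v i.val i.isLt hi
    obtain ⟨l, hl, htop', q, hq⟩ := h.exists_walk v j.val j.isLt hj
    have hkl : k = l := h.top v k l hk hl htop htop'
    subst hkl
    refine ⟨p.append q.reverse, ?_⟩
    intro x hx
    rw [SimpleGraph.Walk.mem_support_append_iff] at hx
    rcases hx with hx | hx
    · exact hp x hx
    · rw [SimpleGraph.Walk.support_reverse, List.mem_reverse] at hx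
      exact hq x hx
  · intro i
    exact h.wid i.val i.isLt

end Pool.Agent.H430R3.TD
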